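import Pool.Agent.Run7.h582.FM.Pos

set_option autoImplicit false

/-! Monotonicity of `RCgood`, and the passage from classes. -/

namespace Pool.Agent.Run7.h582.FM

open Finset Filter
open Pool.Agent.N625.DY (ClsV)
open Pool.Agent.Run7.h844.RP (RC RC_mono fin_formR)

/-- properties of all large integers -/
theorem RCgood.mono {Good Good' : ℕ → Prop} (m₀ : ℕ) (h : ∀ m : ℕ, m₀ ≤ m → Good m → Good' m) (hG : RCgood Good) :
    RCgood Good' := by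
  intro B δ hδ hδ1 U A
  obtain ⟨V, k₀, h0⟩ := hG B δ hδ hδ1 U A
  obtain ⟨k₁, hk₁⟩ : ∃ k₁ : ℕ, ∀ k : ℕ, k₁ ≤ k → (m₀ : ℤ) * (k : ℤ) ^ A < 2 ^ k := by
    have h1 := (isLittleO_pow_const_const_pow_of_one_lt (R := ℝ) A (by norm_num : (1 : ℝ) < 2)).bound
      (show (0 : ℝ) < 1 / (m₀ + 1 : ℕ) by positivity)
    obtain ⟨k₁, h2⟩ := eventually_atTop.mp h1
    refine ⟨k₁ + 1, fun k hk => ?_⟩
    have h3 := h2 k (by omega)
    rw [Real.norm_of_nonneg (by positivity), Real.norm_of_nonneg (by positivity)] at h3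
    have hk0 : (0 : ℝ) < (k : ℝ) ^ A := by
      have : (0 : ℝ) < k := by exact_mod_cast (by omega : 0 < k)
      positivity
    have h4 : ((m₀ + 1 : ℕ) : ℝ) * (k : ℝ) ^ A ≤ 2 ^ k := by
      calc ((m₀ + 1 : ℕ) : ℝ) * (k : ℝ) ^ A ≤ ((m₀ + 1 : ℕ) : ℝ) * (1 / (m₀ + 1 : ℕ) * 2 ^ k) :=
            mul_le_mul_of_nonneg_left h3 (by positivity)
        _ = 2 ^ k := by field_simp
    have h5 : (m₀ : ℝ) * (k : ℝ) ^ A < 2 ^ k := by
      push_cast at h4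
      nlinarith
    exact_mod_cast h5
  refine ⟨V, k₀ + k₁ + 1, fun k hk p hp c hc => ?_⟩
  refine le_trans (sum_le_sum fun v _ => ?_) (h0 k (by omega) p hp c hc)
  have hp0 := hp.nonneg v
  by_cases hb : (2 : ℤ) ^ k ≤ (c + (v : ℕ)) * (k : ℤ) ^ A ∧ ¬ Good' (c + (v : ℕ)).toNat
  · rw [if_pos hb, if_pos]
    refine ⟨hb.1, fun hcon => hb.2 (h _ ?_ hcon)⟩
    have h6 := hk₁ k (by omega)
    have hkA : (0 : ℤ) < (k : ℤ) ^ A := by
      have : (0 : ℤ) < k := by exact_mod_cast (by omega : 0 < k)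
      positivity
    have h7 : (m₀ : ℤ) * (k : ℤ) ^ A < (c + (v : ℕ)) * (k : ℤ) ^ A := lt_of_lt_of_le h6 hb.1
    have h8 := lt_of_mul_lt_mul_right h7 hkA.le
    omega
  · rw [if_neg hb]
    split_ifs <;> linarith

open Classical in
/-- from classes -/
theorem rcgood_of_cls (Good : ℕ → Prop) (h : ∀ C : ℕ → (ℕ → ℝ) → Prop, ClsV 2 1 C → ∀ U A : ℕ, ∃ k₀ : ℕ, ∀ k : ℕ, k₀ ≤ k →
    ∀ p, C k p → ∀ c : ℤ, |c| ≤ (2 : ℤ) ^ k →
    ∑ v ∈ range (2 ^ k), (if (2 : ℤ) ^ k ≤ (c + (v : ℕ)) * (k : ℤ) ^ A ∧ ¬ Good (c + (v : ℕ)).toNat then p v else 0) ≤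
      1 / (k : ℝ) ^ U) : RCgood Good := by
  intro B δ hδ hδ1 U A
  obtain ⟨V, k₀, h0⟩ := fin_formR B δ hδ hδ1 1 one_ne_zero (fun k p => ∃ c : ℤ, |c| ≤ (2 : ℤ) ^ k ∧
    1 / (k : ℝ) ^ U < ∑ v ∈ range (2 ^ k),
      (if (2 : ℤ) ^ k ≤ (c + (v : ℕ)) * (k : ℤ) ^ A ∧ ¬ Good (c + (v : ℕ)).toNat then p v else 0)) (fun C hC => by
      obtain ⟨k₀, h1⟩ := h C hC U A
      refine ⟨k₀, fun k hk p hp => ?_⟩
      rintro ⟨c, hc, hlt⟩
      exact absurd (h1 k hk p hp c hc) (not_le.2 hlt))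
  refine ⟨V, k₀, fun k hk p hp c hc => ?_⟩
  have h2 := h0 k hk p hp
  push Not at h2
  exact h2 c hc

end Pool.Agent.Run7.h582.FM
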