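import Pool.Agent.Run7.h582.FM.De3

set_option autoImplicit false

/-!
The diagonal Moebius-twisted Elliott-Halberstam bound for almost all members of families with a polynomial decay of the
characteristic function, and for almost every `x` with respect to every measure with polynomial Fourier decay.
-/

namespace Pool.Agent.Run7.h582.FM

open Finset Filter MeasureTheory
open Pool.Agent.R311.DEH
open Pool.Agent.N193.DE (ga_sq abs_g_le DF D_le_DF)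
open Pool.Agent.N193.PS (log_pow_ev const_ev)

/-- the sum over the moduli -/
theorem sum_q (U : ℕ) : ∃ Y0 : ℕ, 4 ≤ Y0 ∧ ∀ X K T Q A k : ℕ, Y0 ≤ K → 1 ≤ Q → (∀ q ∈ Icc 1 Q, K ≤ X / q) → 1 ≤ T →
    T ^ 3 ≤ ct K → 1 ≤ A → (2 : ℝ) ^ k ≤ ((2 * X + 1 : ℕ) : ℝ) → (Q : ℝ) ^ (2 * A + 1) ≤ 2 ^ k → ∀ g : ℕ → ℝ, (g = g1 ∨ g = g2) →
    ∀ (τ : Type) (S : Finset τ) (w : τ → ℤ), CH A k τ S w → ∀ t : ℝ, 1 ≤ t →
    ∑ j ∈ S.filter (fun j => 1 ≤ w j ∧ w j ≤ X), DF g Q (w j).toNat ≤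
      112 * (((2 * X + 1 : ℕ) : ℝ) / 2 ^ k) * (1 + Real.log X) ^ 6 * S.card * X *
        (2 * (1 + Real.log X) / t + 8 * t ^ (A - 1) * (1 + Real.log X) ^ 3 * (2 ^ U / Real.log K ^ U + 1 / T)) := by
  obtain ⟨Y0, hY0, h⟩ := one_mod U
  refine ⟨Y0, hY0, fun X K T Q A k hK hQ1 hQ hT hTK hA h2k hQk g hg τ S w hch t ht => ?_⟩
  have hK4 : 4 ≤ K := hY0.trans hK
  have hKX : K ≤ X := by
    have := hQ 1 (mem_Icc.2 ⟨le_rfl, hQ1⟩)
    rwa [Nat.div_one] at this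
  have hX4 : 4 ≤ X := hK4.trans hKX
  have hXr : (4 : ℝ) ≤ X := by exact_mod_cast hX4
  have hKr : (4 : ℝ) ≤ K := by exact_mod_cast hK4
  have hTr : (1 : ℝ) ≤ T := by exact_mod_cast hT
  have hlX : 0 < Real.log X := Real.log_pos (by linarith)
  have hlK : 0 < Real.log K := Real.log_pos (by linarith)
  have hQX : Q ≤ X := by
    have := hQ Q (mem_Icc.2 ⟨hQ1, le_rfl⟩)
    by_contra hcon
    rw [Nat.div_eq_of_lt (by omega)] at this
    omega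
  obtain ⟨ℓ, hℓ⟩ : ∃ ℓ, ℓ = 1 + Real.log X := ⟨_, rfl⟩
  have hℓ1 : 1 ≤ ℓ := by linarith
  obtain ⟨Z, hZ⟩ : ∃ Z, Z = 2 ^ U / Real.log K ^ U + 1 / (T : ℝ) := ⟨_, rfl⟩
  have hZ0 : 0 ≤ Z := by rw [hZ]; positivity
  obtain ⟨n, hn⟩ : ∃ n : ℝ, n = S.card := ⟨_, rfl⟩
  have hn0 : 0 ≤ n := by rw [hn]; positivity
  obtain ⟨ρ, hρ⟩ : ∃ ρ : ℝ, ρ = ((2 * X + 1 : ℕ) : ℝ) / 2 ^ k := ⟨_, rfl⟩
  have hρ1 : 1 ≤ ρ := by rw [hρ, le_div_iff₀ (by positivity)]; linarith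
  have ht0 : 0 < t := by linarith
  obtain ⟨S', hS'⟩ : ∃ S', S' = S.filter (fun j => 1 ≤ w j ∧ w j ≤ X) := ⟨_, rfl⟩
  rw [← hℓ, ← hZ, ← hn, ← hρ, ← hS']
  have hdlsum : ∑ q ∈ Icc 1 Q, dl U X q K ≤ 8 * ℓ ^ 3 * X * Z := by
    have := sum_dl U X K T hX4 hK4 hT hTK
    rw [← hℓ, ← hZ] at this
    refine le_trans ?_ this
    apply sum_le_sum_of_subset_of_nonneg
    · intro q hq
      have h1 := hQ q hq
      rw [mem_Icc] at hq
      rw [Qs, mem_filter, mem_Icc]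
      exact ⟨⟨hq.1, hq.2.trans hQX⟩, h1⟩
    · intro q _ _
      exact dl_nonneg U X q K (by omega) (by omega)
  have hone : ∀ q ∈ Icc 1 Q, ∑ j ∈ S', |Tq g q (w j).toNat| ≤
      56 * ρ * ℓ ^ 2 * n * (2 * X / t * (1 / q) + t ^ (A - 1) * dl U X q K) := by
    intro q hq
    have hqQ : (q : ℝ) ≤ Q := by exact_mod_cast (mem_Icc.1 hq).2
    have h1 := h X q K A k (mem_Icc.1 hq).1 hK (hQ q hq) hA h2k
      ((pow_le_pow_left₀ (Nat.cast_nonneg _) hqQ _).trans hQk) g hg τ S w hch t ht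
    rw [← hℓ, ← hn, ← hρ, ← hS'] at h1
    refine h1.trans (le_of_eq ?_)
    ring
  have hlQ : ∑ q ∈ Icc 1 Q, 1 / (q : ℝ) ≤ ℓ := by
    refine (harm_le Q).trans ?_
    rw [hℓ]
    have : Real.log Q ≤ Real.log X := Real.log_le_log (by exact_mod_cast hQ1) (by exact_mod_cast hQX)
    linarith
  obtain ⟨B, hB⟩ : ∃ B, B = 56 * ρ * ℓ ^ 2 * n * X * (2 * ℓ / t + 8 * t ^ (A - 1) * ℓ ^ 3 * Z) := ⟨_, rfl⟩
  have hB0 : 0 ≤ B := by rw [hB]; positivity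
  have hs1 : ∑ q ∈ Icc 1 Q, ∑ j ∈ S', |Tq g q (w j).toNat| ≤ B := by
    refine (sum_le_sum hone).trans ?_
    rw [← mul_sum, sum_add_distrib, ← mul_sum, ← mul_sum]
    calc 56 * ρ * ℓ ^ 2 * n * (2 * X / t * ∑ q ∈ Icc 1 Q, 1 / (q : ℝ) + t ^ (A - 1) * ∑ q ∈ Icc 1 Q, dl U X q K) ≤
        56 * ρ * ℓ ^ 2 * n * (2 * X / t * ℓ + t ^ (A - 1) * (8 * ℓ ^ 3 * X * Z)) := by
          apply mul_le_mul_of_nonneg_left _ (by positivity)
          apply add_le_add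
          · exact mul_le_mul_of_nonneg_left hlQ (by positivity)
          · exact mul_le_mul_of_nonneg_left hdlsum (by positivity)
      _ = B := by rw [hB]; ring
  have h1sum : ∑ j ∈ S', |Tq g 1 (w j).toNat| ≤ B := by
    refine le_trans ?_ hs1
    exact single_le_sum (f := fun q => ∑ j ∈ S', |Tq g q (w j).toNat|)
      (fun q _ => sum_nonneg fun _ _ => abs_nonneg _) (mem_Icc.2 ⟨le_rfl, hQ1⟩)
  have hphi : ∑ q ∈ Icc 1 Q, 1 / (Nat.totient q : ℝ) ≤ ℓ ^ 4 := by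
    obtain hk := Pool.Agent.H398R2.BV.sum_card_pow_div
    have e1 : ∑ q ∈ Icc 1 Q, 1 / (Nat.totient q : ℝ) ≤ ∑ q ∈ Icc 1 X, 1 / (Nat.totient q : ℝ) :=
      sum_le_sum_of_subset_of_nonneg (Icc_subset_Icc le_rfl hQX) (fun _ _ _ => by positivity)
    refine e1.trans ?_
    have e2 : ∀ q ∈ Icc 1 X, 1 / (Nat.totient q : ℝ) ≤ (q.divisors.card : ℝ) ^ 1 / q := by
      intro q hq
      rw [mem_Icc] at hq
      refine (Pool.Agent.H398R2.BV.one_div_totient_le q hq.1).trans ?_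
      have hq0 : (0 : ℝ) < q := by exact_mod_cast hq.1
      apply div_le_div_of_nonneg_right _ hq0.le
      rw [pow_one]
      exact_mod_cast Pool.Agent.H398R2.BV.two_pow_omega_le q (by omega)
    refine (sum_le_sum e2).trans ?_
    have e3 := hk 1 X
    refine e3.trans ?_
    rw [pow_one, hℓ]
    exact pow_le_pow_right₀ (by linarith) (by norm_num)
  have hDF : ∑ j ∈ S', DF g Q (w j).toNat = ∑ q ∈ Icc 1 Q, ∑ j ∈ S', |Tq g q (w j).toNat| +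
      (∑ q ∈ Icc 1 Q, 1 / (Nat.totient q : ℝ)) * ∑ j ∈ S', |Tq g 1 (w j).toNat| := by
    unfold DF
    rw [sum_comm, sum_mul, ← sum_add_distrib]
    refine sum_congr rfl fun q _ => ?_
    rw [mul_sum, ← sum_add_distrib]
  rw [hDF]
  have h0 : 0 ≤ ∑ j ∈ S', |Tq g 1 (w j).toNat| := sum_nonneg fun _ _ => abs_nonneg _
  calc _ ≤ B + ℓ ^ 4 * B := add_le_add hs1 (mul_le_mul hphi h1sum h0 (by positivity))
    _ ≤ ℓ ^ 4 * B + ℓ ^ 4 * B := by
        have e1 : 1 ≤ ℓ ^ 4 := one_le_pow₀ hℓ1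
        have := mul_le_mul_of_nonneg_right e1 hB0
        linarith
    _ = _ := by rw [hB]; ring

/-- the bounds at the integer `v` -/
def Pde (θ : ℝ) (A V N : ℕ) (g : ℕ → ℝ) (v : ℤ) : Prop :=
  (N : ℝ) ≤ v * Real.log N ^ V → (v : ℝ) ≤ N * Real.log N →
    D g v.toNat ((v.toNat : ℝ) ^ θ) ≤ v.toNat / Real.log v.toNat ^ A ∧ |Tq g 1 v.toNat| ≤ v.toNat / Real.log v.toNat ^ A

open Classical in
/-- **one scale** -/
theorem de_scale (A : ℕ) (hA : 1 ≤ A) (T₀ V A' B : ℕ) : ∃ N₀ : ℕ, ∀ N : ℕ, N₀ ≤ N → ∀ k : ℕ,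
    (N : ℝ) ≤ 2 ^ k * Real.log N ^ T₀ → (2 : ℝ) ^ k ≤ N * Real.log N → ∀ g : ℕ → ℝ, (g = g1 ∨ g = g2) →
    ∀ (τ : Type) (S : Finset τ) (w : τ → ℤ), CH A k τ S w →
    ((S.filter fun j => ¬ Pde (1 / (2 * A + 2)) A' V N g (w j)).card : ℝ) ≤ S.card / Real.log N ^ B := by
  obtain ⟨D', hD'⟩ : ∃ D', D' = 10 + T₀ + A' + V + B := ⟨_, rfl⟩
  obtain ⟨E, hE⟩ : ∃ E, E = D' * A + 3 := ⟨_, rfl⟩
  have hc : (0 : ℝ) < 1 / 2 := by norm_num
  obtain ⟨U, X1, hU⟩ := U_ex (1 / 2) hc E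
  obtain ⟨Y0, hY0, hsum⟩ := sum_q U
  obtain ⟨X2, hK1⟩ := K_large (1 / 2) hc Y0
  obtain ⟨X3, hT⟩ := T_ex (1 / 2) hc E
  obtain ⟨θ, hθ⟩ : ∃ θ : ℝ, θ = 1 / (2 * A + 2) := ⟨_, rfl⟩
  have hA1 : (1 : ℝ) ≤ A := by exact_mod_cast hA
  have hθ0 : 0 < θ := by rw [hθ]; positivity
  have hθ4 : θ ≤ 1 / 4 := by
    rw [hθ]
    apply one_div_le_one_div_of_le (by norm_num)
    linarith
  have hev : ∀ᶠ x : ℝ in atTop, 10000 ≤ Real.log x ∧ 1 * (1 + Real.log x) ^ (T₀ + 1) ≤ x ^ θ ∧ (X1 : ℝ) + X2 + X3 + 4 ≤ x ∧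
      2 * (1 + Real.log x) ^ V ≤ x ^ (1 : ℝ) := by
    filter_upwards [Real.tendsto_log_atTop.eventually_ge_atTop (10000 : ℝ), log_pow_ev (T₀ + 1) 1 θ (by norm_num) hθ0,
      eventually_ge_atTop ((X1 : ℝ) + X2 + X3 + 4), log_pow_ev V 2 1 (by norm_num) one_pos] with x h1 h2 h3 h4
    exact ⟨h1, h2, h3, h4⟩
  obtain ⟨N₀, hN₀⟩ := eventually_atTop.1 ((tendsto_natCast_atTop_atTop (R := ℝ)).eventually hev)
  refine ⟨N₀, fun N hN k hk1 hk2 g hg τ S w hch => ?_⟩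
  rw [← hθ]
  obtain ⟨b1, b2, b3, b4⟩ := hN₀ N hN
  obtain ⟨x, hx⟩ : ∃ x : ℝ, x = (N : ℝ) := ⟨_, rfl⟩
  rw [← hx] at b1 b2 b3 b4 hk1 hk2 ⊢
  have hx4 : 4 ≤ x := by
    have h1 : (0 : ℝ) ≤ (X1 : ℝ) + X2 + X3 := by positivity
    linarith
  have hx0 : 0 < x := by linarith
  have hlog1 : 1 ≤ Real.log x := by linarith
  -- the length
  obtain ⟨X, hX⟩ : ∃ X : ℕ, X = ⌊x * Real.log x⌋₊ := ⟨_, rfl⟩
  have hxl : x ≤ x * Real.log x := by nlinarith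
  have hNX : x ≤ X := by
    rw [hX, hx]
    exact_mod_cast Nat.le_floor (by rw [← hx]; exact hxl)
  have hXle : (X : ℝ) ≤ x * Real.log x := by rw [hX]; exact Nat.floor_le (by positivity)
  have hXlt : x * Real.log x < X + 1 := by rw [hX]; exact Nat.lt_floor_add_one _
  have hXr4 : (4 : ℝ) ≤ X := hx4.trans hNX
  have hX0 : (0 : ℝ) < X := by linarith
  have hXn : X1 + X2 + X3 + 4 ≤ X := by
    have : ((X1 + X2 + X3 + 4 : ℕ) : ℝ) ≤ X := by push_cast; linarith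
    exact_mod_cast this
  obtain ⟨ℓ, hℓ⟩ : ∃ ℓ, ℓ = 1 + Real.log X := ⟨_, rfl⟩
  have hlx : Real.log x ≤ Real.log X := Real.log_le_log hx0 hNX
  have hℓx : Real.log x ≤ ℓ := by linarith
  have hℓ1 : 1 ≤ ℓ := by linarith
  have hℓb : 10000 ≤ ℓ := by linarith
  -- the sizes
  have h2k0 : (0 : ℝ) < 2 ^ k := by positivity
  have hXk : (X : ℝ) ≤ 2 ^ k * Real.log x ^ (T₀ + 1) := by
    calc (X : ℝ) ≤ x * Real.log x := hXle
      _ ≤ (2 ^ k * Real.log x ^ T₀) * Real.log x := mul_le_mul_of_nonneg_right hk1 (by linarith)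
      _ = _ := by ring
  have h2kX : (2 : ℝ) ^ k ≤ ((2 * X + 1 : ℕ) : ℝ) := by
    push_cast
    linarith
  obtain ⟨Q, hQ⟩ : ∃ Q, Q = ⌊(X : ℝ) ^ θ⌋₊ := ⟨_, rfl⟩
  have hXθ : (1 : ℝ) ≤ (X : ℝ) ^ θ := Real.one_le_rpow (by linarith) hθ0.le
  have hQ1 : 1 ≤ Q := by rw [hQ]; exact Nat.le_floor (by exact_mod_cast hXθ)
  have hQle : (Q : ℝ) ≤ (X : ℝ) ^ θ := by rw [hQ]; exact Nat.floor_le (by positivity)
  have hQk : (Q : ℝ) ^ (2 * A + 1) ≤ 2 ^ k := by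
    have e1 : ((X : ℝ) ^ θ) ^ (2 * A + 1) * (X : ℝ) ^ θ = X := by
      rw [← pow_succ, ← Real.rpow_natCast, ← Real.rpow_mul hX0.le, hθ]
      have : 1 / (2 * (A : ℝ) + 2) * ((2 * A + 1 + 1 : ℕ) : ℝ) = 1 := by
        push_cast
        field_simp
        ring
      rw [this, Real.rpow_one]
    have e2 : Real.log x ^ (T₀ + 1) ≤ (X : ℝ) ^ θ := by
      calc Real.log x ^ (T₀ + 1) ≤ 1 * (1 + Real.log x) ^ (T₀ + 1) := by
            rw [one_mul]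
            exact pow_le_pow_left₀ (by linarith) (by linarith) _
        _ ≤ x ^ θ := b2
        _ ≤ _ := Real.rpow_le_rpow hx0.le hNX hθ0.le
    have e3 : ((X : ℝ) ^ θ) ^ (2 * A + 1) * (X : ℝ) ^ θ ≤ 2 ^ k * (X : ℝ) ^ θ := by
      rw [e1]
      exact hXk.trans (mul_le_mul_of_nonneg_left e2 h2k0.le)
    exact (pow_le_pow_left₀ (Nat.cast_nonneg _) hQle _).trans (le_of_mul_le_mul_right e3 (by linarith))
  have a1 := hU X (by omega)
  have a2 := hK1 X (by omega)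
  obtain ⟨T, hT1, hTct, hTge⟩ := hT X (by omega)
  rw [← hℓ] at a1 hTge
  obtain ⟨L, hL⟩ : ∃ L, L = Real.log X := ⟨_, rfl⟩
  have hL9 : 9999 ≤ L := by rw [hL]; linarith
  have hlev : ∀ q ∈ Icc 1 Q, KK' (1 / 2) X ≤ X / q := by
    intro q hq
    rw [mem_Icc] at hq
    apply level (1 / 2) hc X X (by omega) _ le_rfl q hq.1
    · have h1 : (q : ℝ) ≤ (X : ℝ) ^ θ := le_trans (by exact_mod_cast hq.2) hQle
      refine h1.trans ?_
      rw [← hL]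
      have h2 : (X : ℝ) ^ θ = Real.exp (L * θ) := by
        rw [Real.rpow_def_of_pos hX0, hL]
      have h3 : (X : ℝ) = Real.exp L := by rw [hL, Real.exp_log hX0]
      rw [h2]
      rw [h3]
      rw [← Real.exp_add]
      apply Real.exp_le_exp.2
      have h4 : L ^ ((1 : ℝ) / 2) = √L := by rw [Real.sqrt_eq_rpow]
      rw [h4]
      have h6 : 2 ≤ √L := by
        apply Real.le_sqrt_of_sq_le
        linarith
      have h7 : √L * √L = L := Real.mul_self_sqrt (by linarith)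
      have h9 : √L ≤ L / 2 := by nlinarith
      have h10 : L * θ ≤ L * (1 / 4) := mul_le_mul_of_nonneg_left hθ4 (by linarith)
      linarith
    · calc Real.exp (Real.log X / 2) ≤ Real.exp (Real.log X) := by
            apply Real.exp_le_exp.2
            linarith
        _ = X := Real.exp_log hX0
  have ht1 : 1 ≤ ℓ ^ D' := one_le_pow₀ hℓ1
  have hmain := hsum X (KK' (1 / 2) X) T Q A k a2 hQ1 hlev hT1 hTct hA h2kX hQk g hg τ S w hch (ℓ ^ D') ht1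
  rw [← hℓ] at hmain
  obtain ⟨n, hn⟩ : ∃ n : ℝ, n = S.card := ⟨_, rfl⟩
  have hn0 : 0 ≤ n := by rw [hn]; positivity
  rw [← hn] at hmain ⊢
  have hρ : ((2 * X + 1 : ℕ) : ℝ) / 2 ^ k ≤ 3 * ℓ ^ (T₀ + 1) := by
    rw [div_le_iff₀ h2k0]
    push_cast
    have h1 : Real.log x ^ (T₀ + 1) ≤ ℓ ^ (T₀ + 1) := pow_le_pow_left₀ (by linarith) hℓx _
    calc 2 * (X : ℝ) + 1 ≤ 3 * X := by linarith
      _ ≤ 3 * (2 ^ k * ℓ ^ (T₀ + 1)) := by
          apply mul_le_mul_of_nonneg_left _ (by norm_num)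
          exact hXk.trans (mul_le_mul_of_nonneg_left h1 h2k0.le)
      _ = _ := by ring
  have hZ : 2 ^ U / Real.log (KK' (1 / 2) X) ^ U + 1 / (T : ℝ) ≤ 2 / ℓ ^ E := by
    have h1 : 1 / (T : ℝ) ≤ 1 / ℓ ^ E := one_div_le_one_div_of_le (by positivity) hTge
    calc _ ≤ 1 / ℓ ^ E + 1 / ℓ ^ E := add_le_add a1 h1
      _ = _ := by ring
  have hbr : 2 * ℓ / ℓ ^ D' + 8 * (ℓ ^ D') ^ (A - 1) * ℓ ^ 3 * (2 ^ U / Real.log (KK' (1 / 2) X) ^ U + 1 / (T : ℝ)) ≤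
      18 * ℓ / ℓ ^ D' := by
    have h1 : 8 * (ℓ ^ D') ^ (A - 1) * ℓ ^ 3 * (2 ^ U / Real.log (KK' (1 / 2) X) ^ U + 1 / (T : ℝ)) ≤
        8 * (ℓ ^ D') ^ (A - 1) * ℓ ^ 3 * (2 / ℓ ^ E) := mul_le_mul_of_nonneg_left hZ (by positivity)
    have h2 : 8 * (ℓ ^ D') ^ (A - 1) * ℓ ^ 3 * (2 / ℓ ^ E) = 16 / ℓ ^ D' := by
      obtain ⟨m, rfl⟩ : ∃ m, A = m + 1 := ⟨A - 1, by omega⟩
      rw [Nat.add_sub_cancel, hE]
      have e1 : ℓ ^ (D' * (m + 1) + 3) = (ℓ ^ D') ^ m * ℓ ^ 3 * ℓ ^ D' := by ring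
      rw [e1]
      field_simp
      norm_num
    rw [h2] at h1
    have h3 : 16 / ℓ ^ D' ≤ 16 * ℓ / ℓ ^ D' := by
      apply div_le_div_of_nonneg_right _ (by positivity)
      linarith
    calc _ ≤ 2 * ℓ / ℓ ^ D' + 16 * ℓ / ℓ ^ D' := by linarith
      _ = _ := by ring
  have ht5 : ∑ j ∈ S.filter (fun j => 1 ≤ w j ∧ w j ≤ X), DF g Q (w j).toNat ≤ n * X * (6048 * ℓ ^ (T₀ + 8) / ℓ ^ D') := by
    refine hmain.trans ?_
    have hb0 : 0 ≤ 2 * ℓ / ℓ ^ D' + 8 * (ℓ ^ D') ^ (A - 1) * ℓ ^ 3 * (2 ^ U / Real.log (KK' (1 / 2) X) ^ U + 1 / (T : ℝ)) := by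
      have h1 : 0 ≤ Real.log (KK' (1 / 2) X) := by
        apply Real.log_nonneg
        have : 1 ≤ KK' (1 / 2) X := by omega
        exact_mod_cast this
      positivity
    calc 112 * (((2 * X + 1 : ℕ) : ℝ) / 2 ^ k) * ℓ ^ 6 * n * X *
          (2 * ℓ / ℓ ^ D' + 8 * (ℓ ^ D') ^ (A - 1) * ℓ ^ 3 * (2 ^ U / Real.log (KK' (1 / 2) X) ^ U + 1 / (T : ℝ))) ≤
          112 * (3 * ℓ ^ (T₀ + 1)) * ℓ ^ 6 * n * X * (18 * ℓ / ℓ ^ D') := by
            apply mul_le_mul _ hbr hb0 (by positivity)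
            apply mul_le_mul_of_nonneg_right _ hX0.le
            apply mul_le_mul_of_nonneg_right _ hn0
            apply mul_le_mul_of_nonneg_right _ (by positivity)
            exact mul_le_mul_of_nonneg_left hρ (by norm_num)
      _ = _ := by ring
  -- counting
  obtain ⟨Bd, hBd⟩ : ∃ Bd, Bd = S.filter fun j => ¬ Pde θ A' V N g (w j) := ⟨_, rfl⟩
  rw [← hBd]
  have hlow : ∀ j ∈ Bd, (1 ≤ w j ∧ w j ≤ X) ∧ X / ℓ ^ (A' + V + 1) ≤ DF g Q (w j).toNat := by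
    intro j hj
    rw [hBd, mem_filter] at hj
    have hj2 := hj.2
    unfold Pde at hj2
    push Not at hj2
    obtain ⟨h1, h2, h3⟩ := hj2
    rw [← hx] at h1 h2
    have hwr : (0 : ℝ) < w j := by
      by_contra hcon
      push Not at hcon
      have : (w j : ℝ) * Real.log x ^ V ≤ 0 := mul_nonpos_of_nonpos_of_nonneg hcon (by positivity)
      linarith
    have hw1 : 1 ≤ w j := by
      have : (0 : ℤ) < w j := by exact_mod_cast hwr
      omega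
    obtain ⟨v, hv⟩ : ∃ v : ℕ, (v : ℤ) = w j := ⟨(w j).toNat, Int.toNat_of_nonneg (by omega)⟩
    have hv' : (w j).toNat = v := by rw [← hv]; simp
    have hvr : ((w j : ℤ) : ℝ) = v := by rw [← hv]; simp
    rw [hvr] at h1 h2
    rw [hv'] at h3 ⊢
    have hvX : v ≤ X := by
      rw [hX]
      exact Nat.le_floor h2
    have hvXr : (v : ℝ) ≤ X := by exact_mod_cast hvX
    have hv1 : 1 ≤ v := by omega
    have hv1r : (1 : ℝ) ≤ v := by exact_mod_cast hv1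
    refine ⟨⟨hw1, by omega⟩, ?_⟩
    have hlv0 : 0 ≤ Real.log v := Real.log_nonneg hv1r
    have hlvℓ : Real.log v ≤ ℓ := by
      have := Real.log_le_log (by linarith) hvXr
      linarith
    have hvlow : X / ℓ ^ (V + 1) ≤ v := by
      rw [div_le_iff₀ (by positivity)]
      calc (X : ℝ) ≤ x * Real.log x := hXle
        _ ≤ (v * Real.log x ^ V) * Real.log x := mul_le_mul_of_nonneg_right h1 (by linarith)
        _ = v * Real.log x ^ (V + 1) := by ring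
        _ ≤ v * ℓ ^ (V + 1) := mul_le_mul_of_nonneg_left (pow_le_pow_left₀ (by linarith) hℓx _) (by linarith)
    have hlb : X / ℓ ^ (A' + V + 1) ≤ v / ℓ ^ A' := by
      have e1 : ℓ ^ (A' + V + 1) = ℓ ^ (V + 1) * ℓ ^ A' := by ring
      rw [e1, ← div_div]
      exact div_le_div_of_nonneg_right hvlow (by positivity)
    have hterm0 : ∀ q ∈ Icc 1 Q, 0 ≤ |Tq g q v| + 1 / (Nat.totient q : ℝ) * |Tq g 1 v| := fun q _ => by positivity
    have hD1 : D g v ((v : ℝ) ^ θ) ≤ DF g Q v := by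
      apply D_le_DF
      rw [hQ]
      apply Nat.floor_le_floor
      exact Real.rpow_le_rpow (by linarith) hvXr hθ0.le
    have hT1' : |Tq g 1 v| ≤ DF g Q v := by
      unfold DF
      refine le_trans ?_ (single_le_sum hterm0 (mem_Icc.2 ⟨le_rfl, hQ1⟩))
      have : 0 ≤ 1 / (Nat.totient 1 : ℝ) * |Tq g 1 v| := by positivity
      linarith
    have hv2 : (2 : ℝ) ≤ v := by
      have h5 : 2 * Real.log x ^ V ≤ v * Real.log x ^ V := by
        have h6 : Real.log x ^ V ≤ (1 + Real.log x) ^ V := pow_le_pow_left₀ (by linarith) (by linarith) _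
        rw [Real.rpow_one] at b4
        linarith
      exact le_of_mul_le_mul_right h5 (by positivity)
    have hlvp : 0 < Real.log v := Real.log_pos (by linarith)
    have hmid : (v : ℝ) / ℓ ^ A' ≤ v / Real.log v ^ A' := by
      apply div_le_div_of_nonneg_left (by linarith) (by positivity)
      exact pow_le_pow_left₀ hlv0 hlvℓ _
    refine hlb.trans (hmid.trans ?_)
    by_cases hD2 : D g v ((v : ℝ) ^ θ) ≤ v / Real.log v ^ A'
    · exact (h3 hD2).le.trans hT1'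
    · push Not at hD2
      exact hD2.le.trans hD1
  have h6 : (Bd.card : ℝ) * (X / ℓ ^ (A' + V + 1)) ≤ n * X * (6048 * ℓ ^ (T₀ + 8) / ℓ ^ D') := by
    calc (Bd.card : ℝ) * (X / ℓ ^ (A' + V + 1)) = ∑ j ∈ Bd, X / ℓ ^ (A' + V + 1) := by rw [sum_const, nsmul_eq_mul]
      _ ≤ ∑ j ∈ Bd, DF g Q (w j).toNat := sum_le_sum fun j hj => (hlow j hj).2
      _ ≤ ∑ j ∈ S.filter (fun j => 1 ≤ w j ∧ w j ≤ X), DF g Q (w j).toNat := by
          apply sum_le_sum_of_subset_of_nonneg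
          · intro j hj
            rw [mem_filter]
            refine ⟨?_, (hlow j hj).1⟩
            rw [hBd] at hj
            exact (mem_filter.1 hj).1
          · intro j _ _
            unfold DF
            exact sum_nonneg fun q _ => by positivity
      _ ≤ _ := ht5
  have hpos : (0 : ℝ) < X / ℓ ^ (A' + V + 1) := by positivity
  have h7 : (Bd.card : ℝ) ≤ n / ℓ ^ B := by
    rw [← le_div_iff₀ hpos] at h6
    refine h6.trans ?_
    have e1 : n * X * (6048 * ℓ ^ (T₀ + 8) / ℓ ^ D') / (X / ℓ ^ (A' + V + 1)) = n / ℓ ^ B * (6048 / ℓ) := by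
      rw [hD']
      have e2 : ℓ ^ (10 + T₀ + A' + V + B) = ℓ ^ (T₀ + 8) * ℓ ^ (A' + V + 1) * ℓ ^ B * ℓ := by ring
      rw [e2]
      field_simp
    rw [e1]
    have h8 : 6048 / ℓ ≤ 1 := by
      rw [div_le_one (by linarith)]
      linarith
    calc n / ℓ ^ B * (6048 / ℓ) ≤ n / ℓ ^ B * 1 := mul_le_mul_of_nonneg_left h8 (by positivity)
      _ = _ := mul_one _
  refine h7.trans ?_
  apply div_le_div_of_nonneg_left hn0 (by positivity)
  exact pow_le_pow_left₀ (by linarith) hℓx _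

/-- **almost every `x`** -/
theorem ae_de (μ : Measure ℝ) (hμ : Decay μ) : ∃ θ : ℝ, 0 < θ ∧ ∀ (η : ℝ), 0 < η → ∀ (B T : ℕ) (N : ℕ → ℕ) (lam c : ℕ → ℝ),
    Sc η B T N lam c → ∀ᵐ x ∂μ, ∀ V A' : ℕ, ∀ᶠ n : ℕ in atTop, ∀ q : ℤ, |(q : ℝ) - (lam n * x + c n)| ≤ Real.log (N n) ^ V →
      ∀ g : ℕ → ℝ, (g = g1 ∨ g = g2) → Pde θ A' V (N n) g q := by
  obtain ⟨A, hA1, H⟩ := ae_scale CH hasCls_ch μ hμ
  refine ⟨1 / (2 * A + 2), by positivity, fun η hη B T N lam c hS => ?_⟩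
  rw [ae_all_iff]
  intro V
  rw [ae_all_iff]
  intro A'
  have hNr : Tendsto (fun n : ℕ => (N n : ℝ)) atTop atTop := by
    have h1 : Tendsto (fun n : ℕ => Real.exp ((n : ℝ) ^ η)) atTop atTop :=
      Real.tendsto_exp_atTop.comp ((tendsto_rpow_atTop hη).comp tendsto_natCast_atTop_atTop)
    exact tendsto_atTop_mono' _ (hS.mono fun n hn => hn.1) h1
  have hlogr : Tendsto (fun n : ℕ => Real.log (N n)) atTop atTop := Real.tendsto_log_atTop.comp hNr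
  have key := H η hη B T V 1 N lam c hS (fun _ => 2) (fun n l q => Pde (1 / (2 * A + 2)) A' V (N n) (if l = 0 then g1 else g2) q) (by
    filter_upwards [hlogr.eventually_ge_atTop 2] with n hn
    rw [pow_one]
    exact_mod_cast hn) (by
    intro U
    obtain ⟨N₀, hN₀⟩ := de_scale A hA1 T V A' U
    filter_upwards [hNr.eventually_ge_atTop (N₀ : ℝ)] with n hn k hk1 hk2 l τ S w hS0 hch
    refine hN₀ (N n) (by exact_mod_cast hn) k hk1 hk2 _ ?_ τ S w hch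
    split_ifs
    · exact Or.inl rfl
    · exact Or.inr rfl)
  filter_upwards [key] with x hx
  filter_upwards [hx] with n hn q hq g hg
  rcases hg with rfl | rfl
  · have := hn q hq 0
    rwa [if_pos rfl] at this
  · have := hn q hq 1
    rwa [if_neg (by decide)] at this

end Pool.Agent.Run7.h582.FM
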