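import Pool.Agent.Run7.h582.FM.Tcls
import Pool.Agent.Run7.h582.FM.AePos

set_option autoImplicit false
set_option maxHeartbeats 4000000

/-!
Goldbach windows and the variance for all the multiples of the integers near the members of families of reals with small
exponential sums, and for almost every `x`. Adapted from `Pool.Agent.N384.MQ.Mult`.
-/

namespace Pool.Agent.Run7.h582.FM

open Finset Filter MeasureTheory
open Pool.Agent.N625.PT (TCls)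

open Classical in
/-- consequences of Hooley's conjecture for all the multiples of the moduli near almost all the members -/
theorem thin_varT (J W T : ℕ) (ε : ℝ) (hε : 0 < ε) (hε1 : ε ≤ 1) (P : ℕ → Prop) (Q₀ : ℕ)
    (hP : ∀ Q : ℕ, Q₀ ≤ Q → (∀ x : ℝ, (Q : ℝ) ≤ x → x ≤ Q * Real.log Q ^ T →
      |Pool.Agent.TH894.PV.G x Q - x * Real.log Q| ≤ ε * (x * Real.log Q)) → P Q) :
    Thin (fun N y => ∀ q : ℕ, 1 ≤ q → |(q : ℝ) - y| ≤ Real.log N ^ W → ∀ h : ℕ, 1 ≤ h → (h : ℝ) ≤ Real.log N ^ J →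
      P (h * q)) := by
  intro B δ hδ hδ1 U
  obtain ⟨G, hG⟩ : ∃ G : ℕ → ℤ → Prop, G = fun k z => ∀ q : ℕ, 1 ≤ q → |(q : ℤ) - z| ≤ ((k : ℕ) : ℤ) ^ (W + 1) →
      ∀ h : ℕ, 1 ≤ h → h ≤ k ^ J → P (h * q) := ⟨_, rfl⟩
  obtain ⟨V, q₀, h0⟩ := transferTN B δ hδ hδ1 0 1 one_ne_zero U G (fun C hC => by
    obtain ⟨k₀, h1⟩ := Pool.Agent.N625.PT.t_var hC 1 J (W + 1) T U ε hε hε1 P Q₀ hP
    refine ⟨k₀, fun k hk p hp c hc => ?_⟩
    rw [hG]
    exact h1 k hk p hp c (by rw [Nat.cast_one, one_mul]; exact hc))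
  obtain ⟨N₁, h1⟩ := Pool.Agent.N193.PS.ev_near 1
  refine ⟨V, q₀ + N₁ + 2, fun M hM ι s y hy hf => ?_⟩
  obtain ⟨k, g1, g2, g3, g4, g5⟩ := h0 M (by omega)
  have hL3 := (h1 M (by omega)).1
  have hl0 : 0 ≤ Real.log M := Real.log_natCast_nonneg M
  refine le_trans (Nat.cast_le.2 (card_le_card fun i hi => ?_)) (g5 ι s y hy hf 0 (by
    rw [Int.cast_zero, abs_zero]
    positivity))
  rw [mem_filter] at hi ⊢
  refine ⟨hi.1, fun hcon => hi.2 ?_⟩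
  rw [hG] at hcon
  intro q hq1 hq h hh1 hh2
  refine hcon q hq1 ?_ h hh1 ?_
  · have h3 : ((|(q : ℤ) - (0 + 1 * ⌊y i⌋)| : ℤ) : ℝ) ≤ ((((k : ℕ) : ℤ) ^ (W + 1) : ℤ) : ℝ) := by
      push_cast
      rw [zero_add, one_mul]
      have h8 := Int.floor_le (y i)
      have h9 := Int.lt_floor_add_one (y i)
      have h10 : |(q : ℝ) - ⌊y i⌋| ≤ |(q : ℝ) - y i| + 1 := by
        have : (q : ℝ) - ⌊y i⌋ = (q - y i) + (y i - ⌊y i⌋) := by ring
        rw [this]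
        refine (abs_add_le _ _).trans (add_le_add le_rfl ?_)
        rw [abs_of_nonneg (by linarith)]
        linarith
      have h11 : 1 ≤ Real.log M ^ W := one_le_pow₀ (by linarith)
      have h12 : Real.log M ^ W ≤ (k : ℝ) ^ W := pow_le_pow_left₀ hl0 g1 W
      have h13 : (3 : ℝ) ≤ k := by linarith
      rw [pow_succ]
      nlinarith
    exact_mod_cast h3
  · have : (h : ℝ) ≤ ((k ^ J : ℕ) : ℝ) := by
      push_cast
      exact hh2.trans (pow_le_pow_left₀ hl0 g1 J)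
    exact_mod_cast this

open Classical in
/-- Goldbach windows for all the multiples of the integers near almost all the members -/
theorem thin_mult (J A W m₀ : ℕ) (ε : ℝ) (hε : 0 < ε) (P : ℕ → Prop)
    (hP : ∀ m : ℕ, m₀ ≤ m → 2 ∣ m → Pool.Agent.W93.PG.WinP ε A m → P m) :
    Thin (fun N y => ∀ q : ℕ, 1 ≤ q → |(q : ℝ) - y| ≤ Real.log N ^ W → ∀ h : ℕ, 1 ≤ h → (h : ℝ) ≤ Real.log N ^ J →
      2 ∣ h * q → P (h * q)) := by
  intro B δ hδ hδ1 U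
  obtain ⟨G, hG⟩ : ∃ G : ℕ → ℤ → Prop, G = fun k z => ∀ h : ℕ, 1 ≤ h → h ≤ k ^ J → ∀ s : ℤ, |s| ≤ ((k : ℕ) : ℤ) ^ (W + 1) →
      0 < (h : ℤ) * (z + s) → 2 ∣ (h : ℤ) * (z + s) → P ((h : ℤ) * (z + s)).toNat := ⟨_, rfl⟩
  obtain ⟨V, q₀, h0⟩ := transferTN B δ hδ hδ1 0 1 one_ne_zero U G (fun C hC => by
    obtain ⟨k₀, h1⟩ := Pool.Agent.N625.PT.t_windows hC 1 J (W + 1) A U m₀ ε hε P hP
    refine ⟨k₀, fun k hk p hp c hc => ?_⟩
    refine h1 k hk p hp c (by rw [Nat.cast_one, one_mul]; exact hc) _ (fun v hv => ?_)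
    rw [hG] at hv
    push Not at hv
    obtain ⟨h, q1, q2, s, q3, q4, q5, q6⟩ := hv
    have e : c + 1 * (v : ℕ) + s = c + s + 1 * (v : ℕ) := by ring
    rw [e] at q4 q5 q6
    exact ⟨h, q1, q2, s, q3, q4, q5, q6⟩)
  obtain ⟨N₁, h1⟩ := Pool.Agent.N193.PS.ev_near 1
  refine ⟨V, q₀ + N₁ + 2, fun M hM ι s y hy hf => ?_⟩
  obtain ⟨k, g1, g2, g3, g4, g5⟩ := h0 M (by omega)
  have hL3 := (h1 M (by omega)).1
  have hl0 : 0 ≤ Real.log M := Real.log_natCast_nonneg M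
  refine le_trans (Nat.cast_le.2 (card_le_card fun i hi => ?_)) (g5 ι s y hy hf 0 (by
    rw [Int.cast_zero, abs_zero]
    positivity))
  rw [mem_filter] at hi ⊢
  refine ⟨hi.1, fun hcon => hi.2 ?_⟩
  rw [hG] at hcon
  intro q hq1 hq h hh1 hh2 h2
  have e : (0 + 1 * ⌊y i⌋) + ((q : ℤ) - (0 + 1 * ⌊y i⌋)) = q := by ring
  have h3 := hcon h hh1 (by
    have : (h : ℝ) ≤ ((k ^ J : ℕ) : ℝ) := by
      push_cast
      exact hh2.trans (pow_le_pow_left₀ hl0 g1 J)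
    exact_mod_cast this) ((q : ℤ) - (0 + 1 * ⌊y i⌋)) (by
    have h3 : ((|(q : ℤ) - (0 + 1 * ⌊y i⌋)| : ℤ) : ℝ) ≤ ((((k : ℕ) : ℤ) ^ (W + 1) : ℤ) : ℝ) := by
      push_cast
      rw [zero_add, one_mul]
      have h8 := Int.floor_le (y i)
      have h9 := Int.lt_floor_add_one (y i)
      have h10 : |(q : ℝ) - ⌊y i⌋| ≤ |(q : ℝ) - y i| + 1 := by
        have : (q : ℝ) - ⌊y i⌋ = (q - y i) + (y i - ⌊y i⌋) := by ring
        rw [this]
        refine (abs_add_le _ _).trans (add_le_add le_rfl ?_)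
        rw [abs_of_nonneg (by linarith)]
        linarith
      have h11 : 1 ≤ Real.log M ^ W := one_le_pow₀ (by linarith)
      have h12 : Real.log M ^ W ≤ (k : ℝ) ^ W := pow_le_pow_left₀ hl0 g1 W
      have h13 : (3 : ℝ) ≤ k := by linarith
      rw [pow_succ]
      nlinarith
    exact_mod_cast h3)
  rw [e] at h3
  have h4 : ((h : ℤ) * (q : ℤ)).toNat = h * q := by
    rw [← Nat.cast_mul, Int.toNat_natCast]
  rw [h4] at h3
  apply h3
  · have : 0 < h * q := Nat.mul_pos (by omega) (by omega)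
    exact_mod_cast this
  · exact_mod_cast h2

/-- all the multiples of all the positive integers near `lam n * x + c n`, and countably many properties -/
theorem ae_mult {ι : Type} [Countable ι] (P : ι → ℕ → Prop)
    (h : ∀ (i : ι) (J W : ℕ), Thin (fun N y => ∀ q : ℕ, 1 ≤ q → |(q : ℝ) - y| ≤ Real.log N ^ W → ∀ h : ℕ, 1 ≤ h →
      (h : ℝ) ≤ Real.log N ^ J → P i (h * q)))
    (μ : Measure ℝ) (hμ : Decay μ)
    (η : ℝ) (hη : 0 < η) (B T : ℕ) (N : ℕ → ℕ) (lam c : ℕ → ℝ) (hS : Sc η B T N lam c) :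
    ∀ᵐ x ∂μ, ∀ (i : ι) (J W : ℕ), ∀ᶠ n : ℕ in atTop, ∀ q : ℕ, 1 ≤ q → |(q : ℝ) - (lam n * x + c n)| ≤ Real.log (N n) ^ W →
      ∀ h : ℕ, 1 ≤ h → (h : ℝ) ≤ Real.log (N n) ^ J → P i (h * q) := by
  have key : ∀ (i : ι) (J W : ℕ), ∀ᵐ x ∂μ, ∀ᶠ n : ℕ in atTop, ∀ q : ℕ, 1 ≤ q →
      |(q : ℝ) - (lam n * x + c n)| ≤ Real.log (N n) ^ W →
      ∀ h : ℕ, 1 ≤ h → (h : ℝ) ≤ Real.log (N n) ^ J → P i (h * q) := by
    intro i J W
    refine ae_of_thin _ (fun N y => ∀ q : ℕ, 1 ≤ q → |(q : ℝ) - y| ≤ Real.log N ^ W → ∀ h : ℕ, 1 ≤ h →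
      (h : ℝ) ≤ Real.log N ^ J → P i (h * q)) (h i J (W + 1)) (fun K hK => ?_) μ hμ η hη B T N lam c hS
    obtain ⟨N₁, h1⟩ := Pool.Agent.N193.PS.ev_near 1
    refine ⟨N₁ + 1, fun N hN y y' hy hP q hq1 hq h' hh1 hh2 => ?_⟩
    have hL3 := (h1 N (by omega)).1
    have hN0 : (0 : ℝ) < N := by exact_mod_cast (by omega : 0 < N)
    have hle : Real.log N ≤ Real.log ((K * N : ℕ) : ℝ) := by
      apply Real.log_le_log hN0
      exact_mod_cast Nat.le_mul_of_pos_left N (by omega)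
    refine hP q hq1 ?_ h' hh1 (hh2.trans (pow_le_pow_left₀ (by linarith) hle J))
    have h3 : |(q : ℝ) - y'| ≤ |(q : ℝ) - y| + 1 := by
      have : (q : ℝ) - y' = (q - y) + (y - y') := by ring
      rw [this]
      refine (abs_add_le _ _).trans (add_le_add le_rfl ?_)
      rw [abs_sub_comm]
      exact hy
    have h4 : 1 ≤ Real.log N ^ W := one_le_pow₀ (by linarith)
    have h5 : Real.log N ^ (W + 1) ≤ Real.log ((K * N : ℕ) : ℝ) ^ (W + 1) := pow_le_pow_left₀ (by linarith) hle _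
    have h6 : Real.log N ^ W + 1 ≤ Real.log N ^ (W + 1) := by
      rw [pow_succ]
      nlinarith
    linarith
  simp only [← ae_all_iff] at key
  exact key

end Pool.Agent.Run7.h582.FM
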