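import Pool.Agent.Run7.h582.FM.De2

set_option autoImplicit false

/-!
Additive convolutions over the members of families with a polynomial decay of the characteristic function.
-/

namespace Pool.Agent.Run7.h582.FM

open Finset Filter MeasureTheory
open Pool.Agent.H807R2.Dav (ee norm_ee ee_add ee_add_int ee_int)
open Pool.Agent.H373R2.T7 (orth majorant parseval_Icc conj_ee)
open Pool.Agent.R311.DEH (cv cv_fourier cv_eq g1 g2 dl dl_nonneg g_bound Tq Tq_eq sum_dl ct Qs D)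
open Pool.Agent.N193.DE (ga_sq abs_g_le DF D_le_DF)

/-- the duality -/
theorem key_pair {τ : Type} (X M : ℕ) (hM : 2 * X < M) (J : Finset τ) (c : τ → ℝ) (hc : ∀ j ∈ J, |c j| ≤ 1) (w : τ → ℤ)
    (hcw : ∀ j ∈ J, c j ≠ 0 → 1 ≤ w j ∧ w j ≤ X) (a b : ℕ → ℂ) (δ Wa Wb : ℝ)
    (hδ : ∀ α : ℝ, ‖∑ m ∈ Icc 1 X, a m * ee ((m : ℝ) * α)‖ ≤ δ)
    (ha : ∑ m ∈ Icc 1 X, ‖a m‖ ^ 2 ≤ Wa) (hb : ∑ m ∈ Icc 1 X, ‖b m‖ ^ 2 ≤ Wb) (k : ℕ) (hk : 1 ≤ k) :
    ‖∑ j ∈ J, (c j : ℂ) * ∑ n ∈ Ico 1 (w j).toNat, b n * a ((w j).toNat - n)‖ ^ (2 * k) * M ≤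
      Wb ^ k * Wa ^ (k - 1) * δ ^ 2 * ∑ t ∈ range M, ‖∑ j ∈ J, ee ((t : ℝ) * ((w j : ℝ) / M))‖ ^ (2 * k) := by
  have hM1 : 1 ≤ M := by omega
  have hM0 : (0 : ℝ) < M := by exact_mod_cast hM1
  obtain ⟨P, hP⟩ : ∃ P : ℕ → ℂ, P = fun t : ℕ => ∑ m ∈ Icc 1 X, a m * ee ((t : ℝ) * ((((1 : ℤ) * m : ℤ) : ℝ) / M)) := ⟨_, rfl⟩
  obtain ⟨Q, hQ⟩ : ∃ Q : ℕ → ℂ, Q = fun t : ℕ => ∑ m ∈ Icc 1 X, b m * ee ((t : ℝ) * ((((1 : ℤ) * m : ℤ) : ℝ) / M)) := ⟨_, rfl⟩
  obtain ⟨F, hF⟩ : ∃ F : ℕ → ℂ, F = fun t : ℕ => ∑ j ∈ J, (c j : ℂ) * ee (-((t : ℝ) * ((w j : ℝ) / M))) := ⟨_, rfl⟩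
  obtain ⟨R, hR⟩ : ∃ R : ℂ, R = ∑ j ∈ J, (c j : ℂ) * ∑ n ∈ Ico 1 (w j).toNat, b n * a ((w j).toNat - n) := ⟨_, rfl⟩
  -- the identity
  have hid : (M : ℂ) * R = ∑ t ∈ range M, P t * Q t * F t := by
    have h1 : ∀ t ∈ range M, P t * Q t * F t = ∑ N ∈ Icc 1 (2 * X), ∑ j ∈ J, cv X a b N * (c j : ℂ) *
        ee ((t : ℝ) * ((((N : ℤ) - w j : ℤ) : ℝ) / M)) := by
      intro t _
      rw [hP, hQ, hF]
      simp only
      rw [← cv_fourier X M a b t, sum_mul_sum]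
      refine sum_congr rfl fun N _ => sum_congr rfl fun j _ => ?_
      have h2 : ee ((t : ℝ) * ((((N : ℤ) - w j : ℤ) : ℝ) / M)) = ee ((t : ℝ) * ((((1 : ℤ) * N : ℤ) : ℝ) / M)) *
          ee (-((t : ℝ) * ((w j : ℝ) / M))) := by
        rw [← ee_add]
        congr 1
        push_cast
        ring
      rw [h2]
      ring
    rw [sum_congr rfl h1, sum_comm]
    have h3 : ∀ N ∈ Icc 1 (2 * X), ∑ t ∈ range M, ∑ j ∈ J, cv X a b N * (c j : ℂ) *
        ee ((t : ℝ) * ((((N : ℤ) - w j : ℤ) : ℝ) / M)) =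
        ∑ j ∈ J, cv X a b N * (c j : ℂ) * (if (M : ℤ) ∣ (N : ℤ) - w j then (M : ℂ) else 0) := by
      intro N _
      rw [sum_comm]
      refine sum_congr rfl fun j _ => ?_
      rw [← mul_sum, orth M hM1]
    rw [sum_congr rfl h3, sum_comm, hR, mul_sum]
    refine sum_congr rfl fun j hj => ?_
    by_cases hcj : c j = 0
    · rw [hcj]
      simp
    · obtain ⟨h4, h5⟩ := hcw j hj hcj
      obtain ⟨N', hN'⟩ : ∃ N' : ℕ, (N' : ℤ) = w j := ⟨(w j).toNat, Int.toNat_of_nonneg (by omega)⟩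
      have hN'' : (w j).toNat = N' := by rw [← hN']; simp
      rw [hN'', sum_eq_single_of_mem N' (mem_Icc.2 ⟨by omega, by omega⟩)]
      · rw [← hN', sub_self, if_pos (dvd_zero _), ← cv_eq X a b (by omega : N' ≤ X)]
        ring
      · intro N hN hne
        rw [mem_Icc] at hN
        rw [if_neg, mul_zero]
        rintro ⟨z, hz⟩
        have hz0 : z = 0 := by
          by_contra h0
          rcases lt_or_gt_of_ne h0 with h9 | h9
          · have : (M : ℤ) * z ≤ M * (-1) := mul_le_mul_of_nonneg_left (by omega) (by omega)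
            omega
          · have : (M : ℤ) * 1 ≤ M * z := mul_le_mul_of_nonneg_left (by omega) (by omega)
            omega
        rw [hz0, mul_zero] at hz
        omega
  -- the norms
  have p1 := parseval_Icc X M hM1 (by omega) a 1 (Or.inl rfl)
  have p2 := parseval_Icc X M hM1 (by omega) b 1 (Or.inl rfl)
  have hPd : ∀ t, ‖P t‖ ^ 2 ≤ δ ^ 2 := by
    intro t
    apply pow_le_pow_left₀ (norm_nonneg _)
    refine le_trans (le_of_eq ?_) (hδ ((t : ℝ) / M))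
    rw [hP]
    simp only
    congr 1
    refine sum_congr rfl fun m _ => ?_
    congr 2
    push_cast
    ring
  have hP2 : ∑ t ∈ range M, ‖P t‖ ^ 2 ≤ M * Wa := by
    rw [hP]
    simp only
    rw [p1]
    exact mul_le_mul_of_nonneg_left ha hM0.le
  have hQ2 : ∑ t ∈ range M, ‖Q t‖ ^ 2 ≤ M * Wb := by
    rw [hQ]
    simp only
    rw [p2]
    exact mul_le_mul_of_nonneg_left hb hM0.le
  have hWa0 : 0 ≤ Wa := le_trans (sum_nonneg fun _ _ => by positivity) ha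
  have hWb0 : 0 ≤ Wb := le_trans (sum_nonneg fun _ _ => by positivity) hb
  have hFE : ∑ t ∈ range M, ‖F t‖ ^ (2 * k) ≤ ∑ t ∈ range M, ‖∑ j ∈ J, ee ((t : ℝ) * ((w j : ℝ) / M))‖ ^ (2 * k) := by
    refine le_trans (le_of_eq ?_) (energy_major J (fun j => (c j : ℂ)) (fun j hj => by
      rw [Complex.norm_real]
      exact hc j hj) w k M hM1)
    refine sum_congr rfl fun t _ => ?_
    congr 1
    rw [hF]
    simp only
    have h1 : ∑ j ∈ J, (c j : ℂ) * ee (-((t : ℝ) * ((w j : ℝ) / M))) =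
        (starRingEnd ℂ) (∑ j ∈ J, (c j : ℂ) * ee ((t : ℝ) * ((w j : ℝ) / M))) := by
      rw [map_sum]
      refine sum_congr rfl fun j _ => ?_
      rw [map_mul, Complex.conj_ofReal, conj_ee]
    rw [h1, RCLike.norm_conj]
  obtain ⟨E, hE⟩ : ∃ E, E = ∑ t ∈ range M, ‖∑ j ∈ J, ee ((t : ℝ) * ((w j : ℝ) / M))‖ ^ (2 * k) := ⟨_, rfl⟩
  have hE0 : 0 ≤ E := by rw [hE]; exact sum_nonneg fun _ _ => by positivity
  rw [← hE] at hFE
  rw [← hE, ← hR]
  have h1 : (M * ‖R‖) ≤ ∑ t ∈ range M, ‖Q t‖ * (‖P t‖ * ‖F t‖) := by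
    have : (M : ℝ) * ‖R‖ = ‖(M : ℂ) * R‖ := by rw [norm_mul, Complex.norm_natCast]
    rw [this, hid]
    refine (norm_sum_le _ _).trans (sum_le_sum fun t _ => ?_)
    rw [norm_mul, norm_mul]
    exact le_of_eq (by ring)
  have h2 : (M * ‖R‖) ^ 2 ≤ (M * Wb) * ∑ t ∈ range M, ‖P t‖ ^ 2 * ‖F t‖ ^ 2 := by
    calc (M * ‖R‖) ^ 2 ≤ (∑ t ∈ range M, ‖Q t‖ * (‖P t‖ * ‖F t‖)) ^ 2 := pow_le_pow_left₀ (by positivity) h1 2
      _ ≤ (∑ t ∈ range M, ‖Q t‖ ^ 2) * ∑ t ∈ range M, (‖P t‖ * ‖F t‖) ^ 2 := sum_mul_sq_le_sq_mul_sq _ _ _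
      _ ≤ (M * Wb) * ∑ t ∈ range M, (‖P t‖ * ‖F t‖) ^ 2 :=
          mul_le_mul_of_nonneg_right hQ2 (sum_nonneg fun _ _ => by positivity)
      _ = _ := by
          congr 1
          exact sum_congr rfl fun t _ => by rw [mul_pow]
  have h3 : (∑ t ∈ range M, ‖P t‖ ^ 2 * ‖F t‖ ^ 2) ^ k ≤ (M * Wa) ^ (k - 1) * (δ ^ 2 * E) := by
    refine (jensen (range M) (fun t => ‖P t‖ ^ 2) (fun t => ‖F t‖ ^ 2) (fun _ _ => by positivity) (fun _ _ => by positivity)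
      k hk).trans ?_
    apply mul_le_mul (pow_le_pow_left₀ (sum_nonneg fun _ _ => by positivity) hP2 _) _
      (sum_nonneg fun _ _ => by positivity) (by positivity)
    calc ∑ t ∈ range M, ‖P t‖ ^ 2 * (‖F t‖ ^ 2) ^ k ≤ ∑ t ∈ range M, δ ^ 2 * ‖F t‖ ^ (2 * k) := by
          apply sum_le_sum
          intro t _
          rw [← pow_mul]
          exact mul_le_mul_of_nonneg_right (hPd t) (by positivity)
      _ = δ ^ 2 * ∑ t ∈ range M, ‖F t‖ ^ (2 * k) := by rw [mul_sum]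
      _ ≤ δ ^ 2 * E := mul_le_mul_of_nonneg_left hFE (by positivity)
  have h4 : (M * ‖R‖) ^ (2 * k) ≤ (M * Wb) ^ k * ((M * Wa) ^ (k - 1) * (δ ^ 2 * E)) := by
    calc (M * ‖R‖) ^ (2 * k) = ((M * ‖R‖) ^ 2) ^ k := by rw [pow_mul]
      _ ≤ ((M * Wb) * ∑ t ∈ range M, ‖P t‖ ^ 2 * ‖F t‖ ^ 2) ^ k := pow_le_pow_left₀ (by positivity) h2 k
      _ = (M * Wb) ^ k * (∑ t ∈ range M, ‖P t‖ ^ 2 * ‖F t‖ ^ 2) ^ k := by rw [mul_pow]
      _ ≤ _ := mul_le_mul_of_nonneg_left h3 (by positivity)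
  obtain ⟨m, rfl⟩ : ∃ m, k = m + 1 := ⟨k - 1, by omega⟩
  rw [Nat.add_sub_cancel] at h4 ⊢
  have h5 : (‖R‖ ^ (2 * (m + 1)) * M) * (M : ℝ) ^ (2 * m + 1) ≤
      (Wb ^ (m + 1) * Wa ^ m * δ ^ 2 * E) * (M : ℝ) ^ (2 * m + 1) := by
    calc (‖R‖ ^ (2 * (m + 1)) * M) * (M : ℝ) ^ (2 * m + 1) = (M * ‖R‖) ^ (2 * (m + 1)) := by ring
      _ ≤ _ := h4
      _ = _ := by ring
  exact le_of_mul_le_mul_right h5 (by positivity)

lemma class_count (q X : ℕ) (hq : 1 ≤ q) (b : ℤ) : (((Icc 1 X).filter fun n : ℕ => (q : ℤ) ∣ (n : ℤ) - b).card : ℝ) ≤ X / q + 1 := by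
  have hq0 : (0 : ℝ) < q := by exact_mod_cast hq
  have h1 : ((Icc 1 X).filter fun n : ℕ => (q : ℤ) ∣ (n : ℤ) - b).card ≤ (range (X / q + 1)).card := by
    apply card_le_card_of_injOn (fun n => n / q)
    · intro n hn
      rw [mem_coe, mem_filter, mem_Icc] at hn
      rw [mem_coe, mem_range]
      exact Nat.lt_succ_of_le (Nat.div_le_div_right hn.1.2)
    · intro n hn n' hn' h
      rw [mem_coe, mem_filter] at hn hn'
      have h2 : (q : ℤ) ∣ (n : ℤ) - n' := by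
        have h3 := dvd_sub hn.2 hn'.2
        have : (n : ℤ) - b - (n' - b) = n - n' := by ring
        rwa [this] at h3
      have h3 : n % q = n' % q := by
        have h4 : (n : ℤ) % q = (n' : ℤ) % q := Int.emod_eq_emod_iff_emod_sub_eq_zero.2 (Int.emod_eq_zero_of_dvd h2)
        exact_mod_cast h4
      have h4 : n / q = n' / q := h
      rw [← Nat.div_add_mod n q, ← Nat.div_add_mod n' q, h3, h4]
  rw [card_range] at h1
  have h2 : ((X / q : ℕ) : ℝ) ≤ (X : ℝ) / q := Nat.cast_div_le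
  have h3 : (((Icc 1 X).filter fun n : ℕ => (q : ℤ) ∣ (n : ℤ) - b).card : ℝ) ≤ ((X / q + 1 : ℕ) : ℝ) := Nat.cast_le.2 h1
  push_cast at h3
  linarith

open Classical in
/-- **one modulus** -/
theorem one_mod (U : ℕ) : ∃ Y0 : ℕ, 4 ≤ Y0 ∧ ∀ X q K A k : ℕ, 1 ≤ q → Y0 ≤ K → K ≤ X / q → 1 ≤ A →
    (2 : ℝ) ^ k ≤ ((2 * X + 1 : ℕ) : ℝ) → (q : ℝ) ^ (2 * A + 1) ≤ 2 ^ k → ∀ g : ℕ → ℝ, (g = g1 ∨ g = g2) →
    ∀ (τ : Type) (S : Finset τ) (w : τ → ℤ), CH A k τ S w → ∀ t : ℝ, 1 ≤ t →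
    ∑ j ∈ S.filter (fun j => 1 ≤ w j ∧ w j ≤ X), |Tq g q (w j).toNat| ≤
      56 * (((2 * X + 1 : ℕ) : ℝ) / 2 ^ k) * (1 + Real.log X) ^ 2 * S.card * (2 * X / q / t + t ^ (A - 1) * dl U X q K) := by
  obtain ⟨Y0, hY0, hgb⟩ := g_bound U
  refine ⟨Y0, hY0, fun X q K A k hq hK hKX hA h2k hqk g hg τ S w hch t ht => ?_⟩
  have hK4 : 4 ≤ K := hY0.trans hK
  have hX4 : 4 ≤ X := (hK4.trans hKX).trans (Nat.div_le_self _ _)
  have hXr : (4 : ℝ) ≤ X := by exact_mod_cast hX4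
  have hX0 : (0 : ℝ) < X := by linarith
  have hq0 : (0 : ℝ) < q := by exact_mod_cast hq
  have hqX : (q : ℝ) ≤ X := by
    have : q ≤ X := by
      by_contra hcon
      rw [Nat.div_eq_of_lt (by omega)] at hKX
      omega
    exact_mod_cast this
  have hlog : 0 ≤ Real.log X := Real.log_nonneg (by linarith)
  obtain ⟨ℓ, hℓ⟩ : ∃ ℓ, ℓ = 1 + Real.log X := ⟨_, rfl⟩
  have hℓ1 : 1 ≤ ℓ := by linarith
  obtain ⟨δ, hδ⟩ : ∃ δ, δ = dl U X q K := ⟨_, rfl⟩
  have hδ0 : 0 ≤ δ := by rw [hδ]; exact dl_nonneg U X q K (by omega) (by omega)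
  obtain ⟨ρ, hρ⟩ : ∃ ρ : ℝ, ρ = ((2 * X + 1 : ℕ) : ℝ) / 2 ^ k := ⟨_, rfl⟩
  have hρ1 : 1 ≤ ρ := by rw [hρ, le_div_iff₀ (by positivity)]; linarith
  obtain ⟨Y, hY⟩ : ∃ Y : ℝ, Y = 2 * X / q := ⟨_, rfl⟩
  have hYp : 0 < Y := by rw [hY]; positivity
  obtain ⟨n, hn⟩ : ∃ n : ℝ, n = S.card := ⟨_, rfl⟩
  have hn0 : 0 ≤ n := by rw [hn]; positivity
  obtain ⟨V, hV⟩ : ∃ V, V = Y / t + t ^ (A - 1) * δ := ⟨_, rfl⟩
  have ht0 : 0 < t := by linarith
  have hV0 : 0 ≤ V := by rw [hV]; positivity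
  rw [← hℓ, ← hδ, ← hρ, ← hn, ← hY, ← hV]
  -- one class
  have hcl : ∀ b : ℕ, q * ∑ j ∈ (S.filter (fun j => (q : ℤ) ∣ w j - b)).filter (fun j => 1 ≤ w j ∧ w j ≤ X),
      |Tq g q (w j).toNat| ≤ 56 * ρ * ℓ ^ 2 * n * V := by
    intro b
    obtain ⟨J, hJ⟩ : ∃ J, J = S.filter (fun j => (q : ℤ) ∣ w j - b) := ⟨_, rfl⟩
    rw [← hJ]
    obtain ⟨c, hc⟩ : ∃ c : τ → ℝ, c = fun j => if 1 ≤ w j ∧ w j ≤ X then (if 0 ≤ Tq g q (w j).toNat then 1 else -1) else 0 :=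
      ⟨_, rfl⟩
    obtain ⟨a, ha⟩ : ∃ a : ℕ → ℂ, a = fun m => if q ∣ m then (g m : ℂ) else 0 := ⟨_, rfl⟩
    obtain ⟨bb, hbb⟩ : ∃ bb : ℕ → ℂ, bb = fun m : ℕ => if (q : ℤ) ∣ (m : ℤ) - b then
      ((ArithmeticFunction.vonMangoldt m : ℝ) : ℂ) else 0 := ⟨_, rfl⟩
    have hkey := key_pair X (q * (2 * X + 1)) (by nlinarith) J c (by
      intro j _
      rw [hc]
      simp only
      split_ifs <;> norm_num) w (by
      intro j _ hne
      rw [hc] at hne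
      simp only at hne
      by_contra hcon
      rw [if_neg hcon] at hne
      exact hne rfl) a bb δ (Y * ℓ ^ 2) (Y * ℓ ^ 2) (by
      intro α
      rw [ha, hδ]
      exact hgb X q K hq hK hKX g hg α) (by
      rw [ha, hℓ]
      refine (ga_sq g hg X q hq).trans ?_
      apply mul_le_mul_of_nonneg_right _ (by positivity)
      rw [hY]
      apply div_le_div_of_nonneg_right _ hq0.le
      linarith) (by
      have h1 : ∀ m ∈ Icc 1 X, ‖bb m‖ ^ 2 ≤ if (q : ℤ) ∣ (m : ℤ) - b then ℓ ^ 2 else 0 := by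
        intro m hm
        rw [mem_Icc] at hm
        rw [hbb]
        simp only
        split_ifs
        · rw [Complex.norm_real, Real.norm_of_nonneg ArithmeticFunction.vonMangoldt_nonneg]
          apply pow_le_pow_left₀ ArithmeticFunction.vonMangoldt_nonneg
          refine ArithmeticFunction.vonMangoldt_le_log.trans ?_
          have hm0 : (0 : ℝ) < m := by exact_mod_cast hm.1
          have : Real.log m ≤ Real.log X := Real.log_le_log hm0 (by exact_mod_cast hm.2)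
          linarith
        · simp
      refine (sum_le_sum h1).trans ?_
      rw [← sum_filter, sum_const, nsmul_eq_mul]
      apply mul_le_mul_of_nonneg_right _ (by positivity)
      refine (class_count q X hq b).trans ?_
      rw [hY]
      have : (1 : ℝ) ≤ X / q := by rw [le_div_iff₀ hq0]; linarith
      calc (X : ℝ) / q + 1 ≤ X / q + X / q := by linarith
        _ = _ := by ring) A hA
    -- the sum of the absolute values
    have hsum : ∑ j ∈ J, (c j : ℂ) * ∑ m ∈ Ico 1 (w j).toNat, bb m * a ((w j).toNat - m) =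
        ((∑ j ∈ J.filter (fun j => 1 ≤ w j ∧ w j ≤ X), |Tq g q (w j).toNat| : ℝ) : ℂ) := by
      rw [sum_filter]
      push_cast
      refine sum_congr rfl fun j hj => ?_
      rw [hJ, mem_filter] at hj
      rw [hc]
      simp only
      by_cases hw : 1 ≤ w j ∧ w j ≤ X
      · rw [if_pos hw, if_pos hw]
        have h1 : ∑ m ∈ Ico 1 (w j).toNat, bb m * a ((w j).toNat - m) = ((Tq g q (w j).toNat : ℝ) : ℂ) := by
          rw [Tq_eq]
          refine sum_congr rfl fun m hm => ?_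
          rw [mem_Ico] at hm
          rw [hbb, ha]
          simp only
          by_cases hd : q ∣ (w j).toNat - m
          · rw [if_pos hd, if_pos]
            have h2 : (q : ℤ) ∣ (((w j).toNat - m : ℕ) : ℤ) := by exact_mod_cast hd
            rw [Nat.cast_sub hm.2.le, Int.toNat_of_nonneg (by omega)] at h2
            have h3 := dvd_sub hj.2 h2
            have : w j - b - (w j - m) = m - b := by ring
            rwa [this] at h3
          · rw [if_neg hd, mul_zero, mul_zero]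
        rw [h1]
        split_ifs with h0
        · rw [abs_of_nonneg h0]
          push_cast
          ring
        · push Not at h0
          rw [abs_of_neg h0]
          push_cast
          ring
      · rw [if_neg hw, if_neg hw]
        push_cast
        ring
    rw [hsum, Complex.norm_real, Real.norm_of_nonneg (sum_nonneg fun _ _ => abs_nonneg _)] at hkey
    obtain ⟨R, hR⟩ : ∃ R, R = ∑ j ∈ J.filter (fun j => 1 ≤ w j ∧ w j ≤ X), |Tq g q (w j).toNat| := ⟨_, rfl⟩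
    have hR0 : 0 ≤ R := by rw [hR]; exact sum_nonneg fun _ _ => abs_nonneg _
    rw [← hR] at hkey ⊢
    have hen := class_energy S w (q * (2 * X + 1)) hA q (2 * X + 1) hq (by omega) rfl b h2k hqk hch
    rw [← hn, ← hρ] at hen
    obtain ⟨E, hE⟩ : ∃ E, E = ∑ t' ∈ range (q * (2 * X + 1)), ‖∑ j ∈ J, ee ((t' : ℝ) * ((w j : ℝ) / ((q * (2 * X + 1) : ℕ) : ℝ)))‖ ^ (2 * A) :=
      ⟨_, rfl⟩
    have hen' : (q : ℝ) ^ (2 * A) * E ≤ (8 * n) ^ (2 * A) * (7 * ρ * q ^ 2) := by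
      rw [hE, hJ]
      exact hen
    rw [← hE] at hkey
    obtain ⟨m, rfl⟩ : ∃ m, A = m + 1 := ⟨A - 1, by omega⟩
    rw [Nat.add_sub_cancel] at hkey hV
    have h1 : (q * R) ^ (2 * (m + 1)) * (q ^ 2 * Y) ≤
        ((Y * ℓ ^ 2) ^ (2 * m + 1) * δ ^ 2) * ((8 * n) ^ (2 * (m + 1)) * (7 * ρ * q ^ 2)) := by
      have h2 : (q : ℝ) ^ 2 * Y ≤ ((q * (2 * X + 1) : ℕ) : ℝ) := by
        rw [hY]
        push_cast
        have : (q : ℝ) ^ 2 * (2 * X / q) = q * (2 * X) := by field_simp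
        rw [this]
        nlinarith
      calc (q * R) ^ (2 * (m + 1)) * (q ^ 2 * Y) ≤ (q * R) ^ (2 * (m + 1)) * ((q * (2 * X + 1) : ℕ) : ℝ) :=
            mul_le_mul_of_nonneg_left h2 (by positivity)
        _ = q ^ (2 * (m + 1)) * (R ^ (2 * (m + 1)) * ((q * (2 * X + 1) : ℕ) : ℝ)) := by rw [mul_pow]; ring
        _ ≤ q ^ (2 * (m + 1)) * ((Y * ℓ ^ 2) ^ (m + 1) * (Y * ℓ ^ 2) ^ m * δ ^ 2 * E) :=
            mul_le_mul_of_nonneg_left hkey (by positivity)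
        _ = ((Y * ℓ ^ 2) ^ (2 * m + 1) * δ ^ 2) * (q ^ (2 * (m + 1)) * E) := by ring
        _ ≤ _ := mul_le_mul_of_nonneg_left hen' (by positivity)
    have h3 : (q * R) ^ (2 * (m + 1)) ≤ (Y ^ m * δ) ^ 2 * ℓ ^ (4 * m + 2) * (8 * n) ^ (2 * (m + 1)) * (7 * ρ) := by
      have h4 : (q * R) ^ (2 * (m + 1)) * (q ^ 2 * Y) ≤
          ((Y ^ m * δ) ^ 2 * ℓ ^ (4 * m + 2) * (8 * n) ^ (2 * (m + 1)) * (7 * ρ)) * (q ^ 2 * Y) := by
        refine h1.trans (le_of_eq ?_)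
        ring
      exact le_of_mul_le_mul_right h4 (by positivity)
    have h5 : Y ^ m * δ ≤ V ^ (m + 1) := by
      have e1 : Y ^ m * δ = (Y / t) ^ m * (t ^ m * δ) := by
        rw [div_pow]
        field_simp
      rw [e1, pow_succ]
      have ha1 : Y / t ≤ V := by
        rw [hV]
        have : 0 ≤ t ^ m * δ := by positivity
        linarith
      have ha2 : t ^ m * δ ≤ V := by
        rw [hV]
        have : 0 ≤ Y / t := by positivity
        linarith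
      exact mul_le_mul (pow_le_pow_left₀ (by positivity) ha1 _) ha2 (by positivity) (by positivity)
    have h6 : (q * R) ^ (2 * (m + 1)) ≤ (56 * ρ * ℓ ^ 2 * n * V) ^ (2 * (m + 1)) := by
      refine h3.trans ?_
      have h7 : (Y ^ m * δ) ^ 2 ≤ V ^ (2 * (m + 1)) := by
        calc (Y ^ m * δ) ^ 2 ≤ (V ^ (m + 1)) ^ 2 := pow_le_pow_left₀ (by positivity) h5 2
          _ = _ := by ring
      have h8 : ℓ ^ (4 * m + 2) ≤ (ℓ ^ 2) ^ (2 * (m + 1)) := by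
        rw [← pow_mul]
        exact pow_le_pow_right₀ hℓ1 (by omega)
      have h9 : 7 * ρ ≤ (7 * ρ) ^ (2 * (m + 1)) := le_self_pow₀ (by linarith) (by omega)
      calc (Y ^ m * δ) ^ 2 * ℓ ^ (4 * m + 2) * (8 * n) ^ (2 * (m + 1)) * (7 * ρ) ≤
            V ^ (2 * (m + 1)) * (ℓ ^ 2) ^ (2 * (m + 1)) * (8 * n) ^ (2 * (m + 1)) * (7 * ρ) ^ (2 * (m + 1)) := by
              gcongr
        _ = _ := by
              rw [← mul_pow, ← mul_pow, ← mul_pow]
              congr 1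
              ring
    exact le_of_pow_le_pow_left₀ (by omega) (by positivity) h6
  -- all classes
  have hall : ∑ j ∈ S.filter (fun j => 1 ≤ w j ∧ w j ≤ X), |Tq g q (w j).toNat| ≤
      ∑ b ∈ range q, ∑ j ∈ (S.filter (fun j => (q : ℤ) ∣ w j - b)).filter (fun j => 1 ≤ w j ∧ w j ≤ X), |Tq g q (w j).toNat| := by
    have h1 : ∀ b ∈ range q, ∑ j ∈ (S.filter (fun j => (q : ℤ) ∣ w j - b)).filter (fun j => 1 ≤ w j ∧ w j ≤ X),
        |Tq g q (w j).toNat| = ∑ j ∈ S.filter (fun j => 1 ≤ w j ∧ w j ≤ X), if (q : ℤ) ∣ w j - b then |Tq g q (w j).toNat| else 0 := by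
      intro b _
      rw [← sum_filter, filter_filter, filter_filter]
      congr 1
      apply filter_congr
      intro j _
      exact and_comm
    rw [sum_congr rfl h1, sum_comm]
    apply sum_le_sum
    intro j hj
    have hqz : (0 : ℤ) < q := by exact_mod_cast hq
    have h2 := Int.emod_nonneg (w j) hqz.ne'
    have h3 := Int.emod_lt_of_pos (w j) hqz
    have hmem : (w j % q).toNat ∈ range q := by
      rw [mem_range]
      omega
    have hd : (q : ℤ) ∣ w j - ((w j % q).toNat : ℕ) := by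
      rw [Int.toNat_of_nonneg h2]
      exact Int.dvd_self_sub_emod
    refine le_trans (le_of_eq ?_) (single_le_sum (f := fun b : ℕ => if (q : ℤ) ∣ w j - b then |Tq g q (w j).toNat| else 0)
      (fun b _ => by
        split_ifs
        · exact abs_nonneg _
        · exact le_rfl) hmem)
    rw [if_pos hd]
  refine hall.trans ?_
  have h2 : ∀ b ∈ range q, ∑ j ∈ (S.filter (fun j => (q : ℤ) ∣ w j - b)).filter (fun j => 1 ≤ w j ∧ w j ≤ X),
      |Tq g q (w j).toNat| ≤ 56 * ρ * ℓ ^ 2 * n * V / q := by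
    intro b _
    rw [le_div_iff₀ hq0, mul_comm]
    exact hcl b
  refine (sum_le_sum h2).trans (le_of_eq ?_)
  rw [sum_const, card_range, nsmul_eq_mul]
  field_simp

end Pool.Agent.Run7.h582.FM
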