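import Pool.Agent.Run7.h582.FM.Es4
import Pool.Agent.Run7.h582.FM.De1
import Pool.Agent.Results.MP_122e00_nt.SparseRandomShifts

set_option autoImplicit false

/-!
The characteristic functions of the members of the families are large only near the integers.
-/

namespace Pool.Agent.Run7.h582.FM

open Finset Filter MeasureTheory
open Pool.Agent.H807R2.Dav (ee norm_ee ee_add ee_add_int)
open Pool.Agent.Results.MP_122e00_nt.SparseRandomShifts (φ FewLarge)

lemma phi_eq {τ : Type} (S : Finset τ) (w : τ → ℤ) (α : ℝ) :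
    ‖φ (fun _ : {i // i ∈ S} => 1 / (S.card : ℝ)) (fun i => w i.1) α‖ = ‖∑ i ∈ S, ee (α * w i)‖ / S.card := by
  have h1 : φ (fun _ : {i // i ∈ S} => 1 / (S.card : ℝ)) (fun i => w i.1) α = ((1 / (S.card : ℝ) : ℝ) : ℂ) * ∑ i ∈ S, ee (α * w i) := by
    unfold φ
    rw [Finset.sum_coe_sort S (fun i => ((1 / (S.card : ℝ) : ℝ) : ℂ) *
      Pool.Agent.Results.MP_122e00_nt.PowerSavingShifts.e ((w i : ℝ) * α)), mul_sum]
    apply sum_congr rfl
    intro i _
    rw [mul_comm α]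
    rfl
  rw [h1, norm_mul, Complex.norm_real, Real.norm_of_nonneg (by positivity)]
  ring

/-- the characteristic function is large only near the integers -/
theorem few_of_ch (A T : ℕ) (θc θ₃ : ℝ) (hθ₃ : 0 < θ₃) (hc : A * θ₃ ≤ θc / 2) (hθc : 0 < θc) : ∀ᶠ N : ℕ in atTop, ∀ k : ℕ,
    (N : ℝ) ≤ 2 ^ k * Real.log N ^ T → ∀ (τ : Type) (S : Finset τ) (w : τ → ℤ), S.Nonempty → CH A k τ S w →
    FewLarge (fun _ : {i // i ∈ S} => 1 / (S.card : ℝ)) (fun i => w i.1) N ((N : ℝ) ^ (-θ₃)) ((N : ℝ) ^ θc) := by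
  have hev : ∀ᶠ x : ℝ in atTop, 2 * (4 ^ A * Real.log x ^ T) + 4 ≤ x ^ (θc / 2) := by
    filter_upwards [log_le_rpow_ev T (θc / 4) (by positivity), eventually_ge_atTop (1 : ℝ),
      (tendsto_rpow_atTop (show 0 < θc / 4 by positivity)).eventually_ge_atTop (2 * 4 ^ A + 4)] with x h1 h2 h3
    have hx0 : 0 < x := by linarith
    have h4 : x ^ (θc / 2) = x ^ (θc / 4) * x ^ (θc / 4) := by
      rw [← Real.rpow_add hx0]
      congr 1
      ring
    have h5 : 1 ≤ x ^ (θc / 4) := Real.one_le_rpow h2 (by positivity)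
    have h6 : (0 : ℝ) < 4 ^ A := by positivity
    rw [h4]
    nlinarith
  filter_upwards [tendsto_natCast_atTop_atTop.eventually hev, eventually_ge_atTop 1] with N hN hN1 k hk τ S w hS hch
  have hNr : (1 : ℝ) ≤ N := by exact_mod_cast hN1
  have hN0 : (0 : ℝ) < N := by linarith
  have hcard : (0 : ℝ) < S.card := by exact_mod_cast hS.card_pos
  have hlog0 : 0 ≤ Real.log N := Real.log_nonneg hNr
  intro Q hQ hsep
  obtain ⟨Y, hY⟩ : ∃ Y : ℝ, Y = 4 ^ A * (N : ℝ) ^ (A * θ₃) * Real.log N ^ T := ⟨_, rfl⟩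
  have hY0 : 0 ≤ Y := by rw [hY]; positivity
  -- the points are near the integers
  have hnear : ∀ a ∈ Q, N * |a - round a| ≤ Y := by
    intro a ha
    obtain ⟨_, _, h3⟩ := hQ a ha
    rw [phi_eq, lt_div_iff₀ hcard] at h3
    have h4 := hch a
    obtain ⟨F, hF⟩ : ∃ F, F = ‖∑ i ∈ S, ee (a * w i)‖ := ⟨_, rfl⟩
    rw [← hF] at h3 h4
    have hρ0 : 0 < (N : ℝ) ^ (-θ₃) := by positivity
    have h5 : ((N : ℝ) ^ (-θ₃) * S.card) ^ A * (2 ^ k * |a - round a|) ≤ (4 * S.card) ^ A := by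
      refine le_trans ?_ h4
      apply mul_le_mul_of_nonneg_right _ (by positivity)
      exact pow_le_pow_left₀ (by positivity) h3.le A
    rw [mul_pow, mul_pow] at h5
    have h6 : ((N : ℝ) ^ (-θ₃)) ^ A * (2 ^ k * |a - round a|) ≤ 4 ^ A := by
      have h7 : (0 : ℝ) < (S.card : ℝ) ^ A := by positivity
      apply le_of_mul_le_mul_right _ h7
      calc ((N : ℝ) ^ (-θ₃)) ^ A * (2 ^ k * |a - round a|) * (S.card : ℝ) ^ A =
          ((N : ℝ) ^ (-θ₃)) ^ A * (S.card : ℝ) ^ A * (2 ^ k * |a - round a|) := by ring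
        _ ≤ _ := h5
    have h7 : ((N : ℝ) ^ (-θ₃)) ^ A = ((N : ℝ) ^ (A * θ₃))⁻¹ := by
      rw [← Real.rpow_natCast, ← Real.rpow_mul hN0.le, ← Real.rpow_neg hN0.le]
      congr 1
      ring
    rw [h7, inv_mul_le_iff₀ (by positivity)] at h6
    calc (N : ℝ) * |a - round a| ≤ (2 ^ k * Real.log N ^ T) * |a - round a| := mul_le_mul_of_nonneg_right hk (abs_nonneg _)
      _ = (2 ^ k * |a - round a|) * Real.log N ^ T := by ring
      _ ≤ ((N : ℝ) ^ (A * θ₃) * 4 ^ A) * Real.log N ^ T := mul_le_mul_of_nonneg_right h6 (by positivity)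
      _ = Y := by rw [hY]; ring
  -- the counting
  obtain ⟨m, hm⟩ : ∃ m : ℤ, m = ⌊Y⌋ := ⟨_, rfl⟩
  have hm0 : 0 ≤ m := by rw [hm]; exact Int.floor_nonneg.2 hY0
  have hinj : Set.InjOn (fun a : ℝ => ⌊N * a⌋) (Q : Set ℝ) := by
    intro a ha b hb hab
    by_contra hne
    have h1 := hsep a ha b hb hne
    simp only at hab
    rw [div_le_iff₀ hN0] at h1
    have h2 := Int.floor_le ((N : ℝ) * a)
    have h3 := Int.lt_floor_add_one ((N : ℝ) * a)
    have h4 := Int.floor_le ((N : ℝ) * b)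
    have h5 := Int.lt_floor_add_one ((N : ℝ) * b)
    rw [hab] at h2 h3
    have h6 : |(N : ℝ) * a - N * b| < 1 := by
      rw [abs_lt]
      constructor <;> linarith
    rw [← mul_sub, abs_mul, abs_of_pos hN0] at h6
    linarith
  have himg : Q.image (fun a : ℝ => ⌊(N : ℝ) * a⌋) ⊆ Icc 0 m ∪ Icc (N - m - 1) N := by
    intro z hz
    rw [mem_image] at hz
    obtain ⟨a, ha, rfl⟩ := hz
    obtain ⟨h1, h2, _⟩ := hQ a ha
    have h3 := hnear a ha
    have hr0 : 0 ≤ round a := by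
      rw [round_eq]
      exact Int.floor_nonneg.2 (by linarith)
    have hr1 : round a ≤ 1 := by
      rw [round_eq]
      have : ⌊a + 1 / 2⌋ < 2 := Int.floor_lt.2 (by push_cast; linarith)
      omega
    rw [mem_union, mem_Icc, mem_Icc]
    rcases (by omega : round a = 0 ∨ round a = 1) with hr | hr
    · left
      rw [hr] at h3
      rw [Int.cast_zero, sub_zero, abs_of_nonneg h1] at h3
      refine ⟨Int.floor_nonneg.2 (by positivity), ?_⟩
      rw [hm]
      exact Int.floor_le_floor h3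
    · right
      rw [hr] at h3
      rw [Int.cast_one, abs_of_neg (by linarith)] at h3
      have h4 : (N : ℝ) - Y ≤ N * a := by linarith
      have h5 : Y < m + 1 := by rw [hm]; exact Int.lt_floor_add_one Y
      constructor
      · rw [Int.le_floor]
        push_cast
        linarith
      · rw [Int.floor_le_iff]
        push_cast
        nlinarith
  have hcardQ : (Q.card : ℝ) ≤ 2 * Y + 3 := by
    have h1 : Q.card ≤ (m + 1).toNat + (m + 2).toNat := by
      rw [← card_image_of_injOn hinj]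
      refine (card_le_card himg).trans ((card_union_le _ _).trans ?_)
      rw [Int.card_Icc, Int.card_Icc]
      apply Nat.add_le_add
      · exact le_of_eq (by congr 1; ring)
      · exact le_of_eq (by congr 1; ring)
    have h2 : (((m + 1).toNat + (m + 2).toNat : ℕ) : ℝ) = 2 * m + 3 := by
      have h3 : (((m + 1).toNat + (m + 2).toNat : ℕ) : ℤ) = 2 * m + 3 := by
        push_cast
        rw [Int.toNat_of_nonneg (by omega), Int.toNat_of_nonneg (by omega)]
        ring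
      exact_mod_cast congrArg (fun z : ℤ => (z : ℝ)) h3
    have h3 : (m : ℝ) ≤ Y := by rw [hm]; exact Int.floor_le Y
    have h4 : (Q.card : ℝ) ≤ (((m + 1).toNat + (m + 2).toNat : ℕ) : ℝ) := by exact_mod_cast h1
    rw [h2] at h4
    linarith
  refine hcardQ.trans ?_
  have h1 : (N : ℝ) ^ (A * θ₃) ≤ (N : ℝ) ^ (θc / 2) := Real.rpow_le_rpow_of_exponent_le hNr hc
  have h2 : (N : ℝ) ^ θc = (N : ℝ) ^ (θc / 2) * (N : ℝ) ^ (θc / 2) := by
    rw [← Real.rpow_add hN0]
    congr 1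
    ring
  have h3 : 1 ≤ (N : ℝ) ^ (θc / 2) := Real.one_le_rpow hNr (by positivity)
  have h4 : 0 ≤ 4 ^ A * Real.log N ^ T := by positivity
  rw [h2]
  calc 2 * Y + 3 = 2 * (4 ^ A * Real.log N ^ T) * (N : ℝ) ^ (A * θ₃) + 3 := by rw [hY]; ring
    _ ≤ 2 * (4 ^ A * Real.log N ^ T) * (N : ℝ) ^ (θc / 2) + 4 * (N : ℝ) ^ (θc / 2) := by
        apply add_le_add
        · exact mul_le_mul_of_nonneg_left h1 (by positivity)
        · linarith
    _ = (2 * (4 ^ A * Real.log N ^ T) + 4) * (N : ℝ) ^ (θc / 2) := by ring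
    _ ≤ (N : ℝ) ^ (θc / 2) * (N : ℝ) ^ (θc / 2) := mul_le_mul_of_nonneg_right hN (by positivity)

end Pool.Agent.Run7.h582.FM
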