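import Pool.Agent.Run7.h582.FM.AePos
import Pool.Agent.Run7.h582.FM.Tl
import Pool.Agent.R501.LP1

set_option autoImplicit false
set_option maxHeartbeats 4000000

/-!
The variance of the primes in the residue classes modulo the integers near the members of families of reals with small
exponential sums.
-/

namespace Pool.Agent.Run7.h582.FM

open Finset Filter
open Pool.Agent.Y958.RM (BadQ)
open Pool.Agent.Run7.h844.RP (RC RC_mono)

/-- the asymptotic formula for the variance modulo `m` -/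
def VarGood (ε : ℝ) (A m : ℕ) : Prop :=
  ∀ z : ℝ, (m : ℝ) ≤ z → z ≤ m * Real.log m ^ A →
    |Pool.Agent.TH894.PV.G z m - z * Real.log m| ≤ ε * (z * Real.log m)

lemma VarGood.mono {ε ε' : ℝ} {A m : ℕ} (hε : ε ≤ ε') (hm : 1 ≤ m) (h : VarGood ε A m) : VarGood ε' A m := by
  intro z hz1 hz2
  refine (h z hz1 hz2).trans ?_
  apply mul_le_mul_of_nonneg_right hε
  have h1 : (0 : ℝ) < m := by exact_mod_cast hm
  exact mul_nonneg (by linarith) (Real.log_natCast_nonneg m)

theorem rcgood_var (ε : ℝ) (hε : 0 < ε) (A : ℕ) : RCgood (VarGood ε A) := by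
  intro B δ hδ hδ1 U A'
  obtain ⟨V, k₀, h0⟩ := RC_badq B δ hδ 1 one_ne_zero 1 (max A A' + 1) U (min ε 1) (lt_min hε one_pos) (min_le_right _ _)
  refine ⟨V, k₀ + 2, fun k hk p hp c hc => ?_⟩
  have h1 := h0 k (by omega) p hp c (fun v hv => by
    have h2 : |(1 : ℤ) * (v : ℕ)| ≤ 2 ^ k := by
      rw [one_mul, Nat.abs_cast]
      exact_mod_cast hv.le
    calc |c + 1 * (v : ℕ)| ≤ |c| + |(1 : ℤ) * (v : ℕ)| := abs_add_le _ _
      _ ≤ 2 ^ k + 2 ^ k := add_le_add hc h2
      _ = 2 ^ (k + 1) := by rw [pow_succ]; ring)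
  refine le_trans (sum_le_sum fun v hv => ?_) h1
  rw [mem_range] at hv
  have hp0 := hp.nonneg v
  by_cases hb : (2 : ℤ) ^ k ≤ (c + (v : ℕ)) * (k : ℤ) ^ A' ∧ ¬ VarGood ε A (c + (v : ℕ)).toNat
  · rw [if_pos hb, if_pos]
    obtain ⟨hb1, hb2⟩ := hb
    have hk2 : (2 : ℤ) ≤ k := by exact_mod_cast (by omega : 2 ≤ k)
    have hQ0 : 0 < c + (v : ℕ) := by
      by_contra hcon
      push Not at hcon
      have h3 : (c + (v : ℕ)) * (k : ℤ) ^ A' ≤ 0 := mul_nonpos_of_nonpos_of_nonneg hcon (by positivity)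
      have h4 : (0 : ℤ) < 2 ^ k := by positivity
      omega
    have hQle : c + (v : ℕ) ≤ 2 ^ (k + 1) := by
      have h3 := (abs_le.1 hc).2
      have h4 : ((v : ℕ) : ℤ) < 2 ^ k := by exact_mod_cast hv
      rw [pow_succ]
      omega
    obtain ⟨Q, hQ⟩ : ∃ Q : ℕ, (Q : ℤ) = c + (v : ℕ) := ⟨(c + (v : ℕ)).toNat, Int.toNat_of_nonneg hQ0.le⟩
    rw [one_mul]
    rw [← hQ] at hb1 hb2 hQ0 hQle ⊢
    rw [Int.toNat_natCast] at hb2
    have hQp : 0 < Q := by exact_mod_cast hQ0
    have hQr : (0 : ℝ) < Q := by exact_mod_cast hQp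
    refine ⟨?_, ?_⟩
    · calc (2 : ℤ) ^ (k + 1) = 2 * 2 ^ k := by rw [pow_succ]; ring
        _ ≤ k * ((Q : ℤ) * (k : ℤ) ^ A') := mul_le_mul hk2 hb1 (by positivity) (by omega)
        _ = (Q : ℤ) * (k : ℤ) ^ (A' + 1) := by rw [pow_succ]; ring
        _ ≤ (Q : ℤ) * (k : ℤ) ^ (max A A' + 1) := by
            apply mul_le_mul_of_nonneg_left _ (by omega)
            exact pow_le_pow_right₀ (by omega) (by omega)
        _ ≤ (Q : ℤ) * ((k + 1 : ℕ) : ℤ) ^ (max A A' + 1) := by
            apply mul_le_mul_of_nonneg_left _ (by omega)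
            apply pow_le_pow_left₀ (by omega)
            push_cast
            omega
    · unfold VarGood at hb2
      push Not at hb2
      obtain ⟨z, hz1, hz2, hz3⟩ := hb2
      refine ⟨z, by exact_mod_cast hz1, ?_, ?_⟩
      · have hlog : Real.log Q ≤ ((k + 1 : ℕ) : ℝ) := by
          have h3 : (Q : ℝ) ≤ 2 ^ (k + 1) := by exact_mod_cast hQle
          have h4 := Real.log_le_log hQr h3
          rw [Real.log_pow] at h4
          have h5 := Real.log_two_lt_d9
          have h6 : (0 : ℝ) ≤ ((k + 1 : ℕ) : ℝ) := Nat.cast_nonneg _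
          nlinarith
        have hlog0 : 0 ≤ Real.log Q := Real.log_natCast_nonneg Q
        have hk1 : (1 : ℝ) ≤ ((k + 1 : ℕ) : ℝ) := by exact_mod_cast (by omega : 1 ≤ k + 1)
        calc z ≤ Q * Real.log Q ^ A := hz2
          _ ≤ Q * ((k + 1 : ℕ) : ℝ) ^ A := by
              apply mul_le_mul_of_nonneg_left _ hQr.le
              exact pow_le_pow_left₀ hlog0 hlog A
          _ ≤ Q * ((k + 1 : ℕ) : ℝ) ^ (max A A' + 1) := by
              apply mul_le_mul_of_nonneg_left _ hQr.le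
              exact pow_le_pow_right₀ hk1 (by omega)
          _ = ((Q : ℤ) : ℝ) * ((k + 1 : ℕ) : ℝ) ^ (max A A' + 1) := by rw [Int.cast_natCast]
      · rw [Int.toNat_natCast, Int.cast_natCast]
        rw [not_le]
        refine lt_of_le_of_lt ?_ hz3
        apply mul_le_mul_of_nonneg_right (min_le_left _ _)
        exact mul_nonneg (by linarith) (Real.log_natCast_nonneg Q)
  · rw [if_neg hb]
    split_ifs <;> linarith

end Pool.Agent.Run7.h582.FM
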